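import Pool.Agent.Q253.Line.Final

/-! The main theorem. -/

set_option autoImplicit false

open Finset Polynomial

namespace Pool.Agent.Q253.Line

/-- the `x`, `0 < x < n`, for which all `|f_k(x, n - x)|` are prime -/
noncomputable def allPrime {m : ℕ} (f : Fin m → MvPolynomial (Fin 2) ℤ) (n : ℕ) : Finset ℕ := by
  classical
  exact (Ioo 0 n).filter (fun x : ℕ => ∀ k, (val (f k) x (n - x)).natAbs.Prime)

/-- the elements of `almost` at which `|f_j(x, n - x)|` is prime -/
noncomputable def primeAt {m : ℕ} (f : Fin m → MvPolynomial (Fin 2) ℤ) (K n : ℕ) (j : Fin m) : Finset ℕ :=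
  (almost f K n).filter (fun x : ℕ => (val (f j) x (n - x)).natAbs.Prime)

theorem onLine_linear (a b c : ℤ) (n : ℕ) :
    onLine (MvPolynomial.C a * MvPolynomial.X 0 + MvPolynomial.C b * MvPolynomial.X 1 + MvPolynomial.C c) n =
      C (a - b) * X + C (b * n + c) := by
  unfold onLine
  simp only [map_add, map_mul, MvPolynomial.aeval_C, MvPolynomial.aeval_X]
  simp only [Matrix.cons_val_zero, Matrix.cons_val_one, Polynomial.algebraMap_apply, Algebra.algebraMap_self,
    RingHom.id_apply, map_sub, map_add, map_mul]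
  ring

/-- the number of the points where a polynomial takes small values -/
theorem small_values {g : ℤ[X]} (hg : 1 ≤ g.natDegree) (z n : ℕ) :
    ((Ioo 0 n).filter (fun x : ℕ => (g.eval (x : ℤ)).natAbs ≤ z)).card ≤ (2 * z + 1) * g.natDegree := by
  classical
  have h1 : (Ioo 0 n).filter (fun x : ℕ => (g.eval (x : ℤ)).natAbs ≤ z) ⊆
      (Icc (-(z : ℤ)) z).biUnion (fun t => (Ioo 0 n).filter (fun x : ℕ => g.eval (x : ℤ) = t)) := by
    intro x hx
    rw [mem_filter] at hx
    rw [mem_biUnion]
    refine ⟨g.eval (x : ℤ), ?_, ?_⟩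
    · rw [mem_Icc]
      constructor <;> omega
    · rw [mem_filter]
      exact ⟨hx.1, rfl⟩
  refine (card_le_card h1).trans (card_biUnion_le.trans ?_)
  have h2 : ∀ t ∈ Icc (-(z : ℤ)) z, ((Ioo 0 n).filter (fun x : ℕ => g.eval (x : ℤ) = t)).card ≤ g.natDegree := by
    intro t _
    have h3 : g - C t ≠ 0 := by
      intro h
      have h4 : g = C t := sub_eq_zero.1 h
      rw [h4, natDegree_C] at hg
      omega
    have h4 : ((Ioo 0 n).filter (fun x : ℕ => g.eval (x : ℤ) = t)).card ≤ (g - C t).roots.toFinset.card := by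
      apply card_le_card_of_injOn (fun x : ℕ => (x : ℤ))
      · intro x hx
        rw [mem_coe, mem_filter] at hx
        rw [mem_coe, Multiset.mem_toFinset, mem_roots h3, IsRoot.def, eval_sub, eval_C, hx.2, sub_self]
      · intro x _ y _ h
        have h' : (x : ℤ) = (y : ℤ) := h
        exact_mod_cast h'
    refine h4.trans ((Multiset.toFinset_card_le _).trans ((card_roots' _).trans ?_))
    rw [natDegree_sub_C]
  refine (sum_le_sum h2).trans ?_
  rw [sum_const, smul_eq_mul, Int.card_Icc]
  apply Nat.mul_le_mul_right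
  omega

theorem main : ∃ K : ℕ, ∀ (m : ℕ) (f : Fin m → MvPolynomial (Fin 2) ℤ), Admissible f →
    ∃ (c C₀ : ℝ) (N : ℕ), 0 < c ∧ ∀ n : ℕ, N ≤ n →
      c / Real.log n ^ deg f ≤ V f n ∧
      c * (n * V f n) ≤ ((almost f K n).card : ℝ) ∧
      ((almost f K n).card : ℝ) ≤ C₀ * (n * V f n) ∧
      (∀ x ∈ almost f K n, ∀ k, val (f k) x (n - x) ≠ 0 ∧
        ArithmeticFunction.cardFactors (val (f k) x (n - x)).natAbs ≤
          K * (deg f + 1) * (f k).totalDegree) ∧
      ((allPrime f n).card : ℝ) ≤ C₀ * (n * V f n) ∧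
      ∀ j, (∃ a b c' : ℤ, f j = MvPolynomial.C a * MvPolynomial.X 0 + MvPolynomial.C b * MvPolynomial.X 1 +
        MvPolynomial.C c') → c * (n * V f n) ≤ ((primeAt f K n j).card : ℝ) := by
  classical
  obtain ⟨K1, hK1, hlow⟩ := lowerA
  obtain ⟨K2, hK2, hup⟩ := upperA
  obtain ⟨K3, hK3, hlowB⟩ := lowerB
  refine ⟨K1 + K2 + K3, fun m f ⟨N0, hadm⟩ => ?_⟩
  set K := K1 + K2 + K3 with hK
  set κ := deg f with hκ
  set E := K * (κ + 1) with hE
  have hE1 : 1 ≤ E := Nat.mul_pos (by omega) (by omega)
  have hE2 : 2 ≤ E := by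
    have : 3 * 1 ≤ K * (κ + 1) := Nat.mul_le_mul (by omega) (by omega)
    omega
  set δ : ℝ := 1 / (2 * (E : ℝ)) with hδ
  have hE0 : (0 : ℝ) < E := by exact_mod_cast hE1
  have hδ0 : 0 < δ := by positivity
  obtain ⟨c1, hc1, N1, h1⟩ := hlow κ
  obtain ⟨c2, hc2, N2, h2⟩ := hup κ δ hδ0
  obtain ⟨cW, hcW, hW⟩ := W_lower κ
  -- the linear members
  have hlin : ∀ j : Fin m, ∃ c3 : ℝ, 0 < c3 ∧ ∃ N3 : ℕ, ∀ n : ℕ, N3 ≤ n →
      (∃ a b c' : ℤ, f j = MvPolynomial.C a * MvPolynomial.X 0 + MvPolynomial.C b * MvPolynomial.X 1 +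
        MvPolynomial.C c') → c3 * (n * V f n) ≤ ((primeAt f K n j).card : ℝ) := by
    intro j
    by_cases hj : ∃ a b c' : ℤ, f j = MvPolynomial.C a * MvPolynomial.X 0 + MvPolynomial.C b * MvPolynomial.X 1 +
        MvPolynomial.C c'
    · obtain ⟨a, b, c', hj⟩ := hj
      have hab : a ≠ b := by
        intro hab
        have h3 := natDegree_pos (hadm N0 le_rfl).1 (hadm N0 le_rfl).2 j
        rw [hj, onLine_linear, hab, sub_self, C_0, zero_mul, zero_add, natDegree_C] at h3
        omega
      obtain ⟨c0, hc0, N3, h3⟩ := hlowB κ a b c' hab δ hδ0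
      refine ⟨c0, hc0, max (max N0 N3) (2 ^ E), fun n hn _ => ?_⟩
      simp only [max_le_iff] at hn
      obtain ⟨⟨hn0, hn3⟩, hnE⟩ := hn
      obtain ⟨z, hz2, hzE, hzp, hlz⟩ := exists_z E n hE1 hnE
      have hF := nfd (hadm n hn0).2
      set G := ∏ k ∈ univ.erase j, onLine (f k) n with hG
      have hFG : FF f n = (C (a - b) * X + C (b * n + c')) * G := by
        unfold FF
        rw [← mul_prod_erase univ _ (mem_univ j), hj, onLine_linear]
      have hGd : G.natDegree ≤ κ := by
        rw [hG, hκ]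
        unfold deg
        refine (natDegree_prod_le _ _).trans ?_
        refine (sum_le_sum (fun k _ => natDegree_onLine (f k) n)).trans ?_
        exact sum_le_sum_of_subset (erase_subset _ _)
      have hz3 : z ^ (K3 * (κ + 1)) ≤ n := by
        refine le_trans (Nat.pow_le_pow_right (by omega) ?_) hzE
        rw [hE]
        exact Nat.mul_le_mul_right _ (by omega)
      have h4 := h3 n hn3 z hz2 hz3 hlz G hGd (by rw [← hFG]; exact hF)
      rw [← hFG, ← V_eq] at h4
      refine h4.trans ?_
      have h5 : (good G (a - b) (b * n + c') z n).card ≤ (primeAt f K n j).card := by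
        apply card_le_card
        intro x hx
        unfold good at hx
        rw [mem_filter] at hx
        obtain ⟨hx1, hx2, hx3, hx4⟩ := hx
        have hval : val (f j) x (n - x) = (a - b) * x + (b * n + c') := by
          rw [← eval_onLine, hj, onLine_linear]
          simp
        unfold primeAt
        rw [mem_filter, almost_eq f hzp, hval]
        refine ⟨?_, hx2⟩
        unfold rough
        rw [mem_filter]
        refine ⟨hx1, fun p hp hd => ?_⟩
        rw [hFG, eval_mul] at hd
        have hpp := (mem_pr.1 hp).1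
        rcases (Nat.prime_iff_prime_int.1 hpp).dvd_or_dvd hd with h | h
        · simp only [eval_add, eval_mul, eval_C, eval_X] at h
          have h6 : p ∣ ((a - b) * (x : ℤ) + (b * n + c')).natAbs := Int.natCast_dvd.1 h
          have h7 := (Nat.prime_dvd_prime_iff_eq hpp hx2).1 h6
          have h8 := (mem_pr.1 hp).2
          omega
        · exact hx4 p hp h
      exact_mod_cast h5
    · exact ⟨1, one_pos, 0, fun n _ h => absurd h hj⟩
  choose cj hcj Nj hNj using hlin
  set S : ℝ := ∑ j, 1 / cj j with hS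
  have hS0 : 0 ≤ S := sum_nonneg fun j _ => (by have := hcj j; positivity)
  set cL : ℝ := 1 / (1 + S) with hcL
  have hcL0 : 0 < cL := by positivity
  have hcLj : ∀ j, cL ≤ cj j := by
    intro j
    have h3 : 1 / cj j ≤ S := single_le_sum (f := fun j => 1 / cj j) (fun i _ => (by
      have := hcj i
      positivity)) (mem_univ j)
    rw [hcL, div_le_iff₀ (by positivity)]
    have h4 := hcj j
    have h5 : 1 = cj j * (1 / cj j) := by field_simp
    nlinarith
  -- sizes
  choose L hL using fun k => abs_val_le (f k)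
  set L0 := ∑ k, L k with hL0
  obtain ⟨N4, hN4⟩ := growth κ (cW / (3 * (κ + 1))) (by positivity)
  refine ⟨min (min c1 cL) cW, c2 + 1, max (max (max N0 N1) (max N2 (∑ j, Nj j))) (max (max N4 3) (max (2 ^ E) (L0 ^ E + 1))),
    lt_min (lt_min hc1 hcL0) hcW, fun n hn => ?_⟩
  simp only [max_le_iff] at hn
  obtain ⟨⟨⟨hn0, hn1⟩, hn2, hnj⟩, ⟨hn4, hn3⟩, hnE, hnL⟩ := hn
  obtain ⟨z, hz2, hzE, hzp, hlz⟩ := exists_z E n hE1 hnE
  have hirr := (hadm n hn0).1
  have hF := nfd (hadm n hn0).2
  have hd := deg_FF f n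
  have hVW := V_eq f n
  have hWp := W_pos hF n
  have hnr : (0 : ℝ) < n := by exact_mod_cast (by omega : 0 < n)
  have hln : 0 < Real.log n := by
    apply Real.log_pos
    exact_mod_cast (by omega : 1 < n)
  have hnW : 0 < n * V f n := by
    rw [hVW]
    positivity
  have hWn := hW n hn3 _ hF hd
  have hal := almost_eq f hzp
  have hz1 : z ^ (K1 * (κ + 1)) ≤ n := by
    refine le_trans (Nat.pow_le_pow_right (by omega) ?_) hzE
    rw [hE]
    exact Nat.mul_le_mul_right _ (by omega)
  have hz2' : z ^ (K2 * (κ + 1)) ≤ n := by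
    refine le_trans (Nat.pow_le_pow_right (by omega) ?_) hzE
    rw [hE]
    exact Nat.mul_le_mul_right _ (by omega)
  have hA1 := h1 n hn1 z hz2 hz1 _ hF hd
  have hA2 := h2 n hn2 z hz2 hz2' hlz _ hF hd
  rw [← hVW, ← hal] at hA1 hA2
  rw [← hVW] at hWn
  have hmem : ∀ x ∈ almost f K n, ∀ k, val (f k) x (n - x) ≠ 0 ∧
        ArithmeticFunction.cardFactors (val (f k) x (n - x)).natAbs ≤
          K * (κ + 1) * (f k).totalDegree := by
    intro x hx k
    unfold almost at hx
    rw [mem_filter, mem_Ioo] at hx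
    obtain ⟨⟨hx1, hx2⟩, hx3⟩ := hx
    have hv0 : val (f k) x (n - x) ≠ 0 := by
      intro h
      apply hx3 k 2 Nat.prime_two (by rw [← hκ, ← hE]; exact hnE)
      rw [h]
      exact dvd_zero _
    refine ⟨hv0, ?_⟩
    rw [← hE]
    have h6 := hL k n x (n - x) (by omega) (by rw [abs_of_nonneg (by omega)]; omega)
      (by rw [abs_of_nonneg (by omega)]; omega)
    have h7 : (val (f k) x (n - x)).natAbs ≤ L k * n ^ (f k).totalDegree := by
      zify
      exact h6
    have h8 : L k ≤ L0 := single_le_sum (f := L) (fun _ _ => Nat.zero_le _) (mem_univ k)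
    have h9 : L k ^ E < n := lt_of_le_of_lt (Nat.pow_le_pow_left h8 E) (by omega)
    apply omega_le (Int.natAbs_ne_zero.2 hv0) h7 h9
    intro p hp hpd
    by_contra hcon
    push Not at hcon
    exact hx3 k p hp hcon (Int.natCast_dvd.2 hpd)
  refine ⟨?_, ?_, ?_, hmem, ?_, ?_⟩
  · refine le_trans ?_ hWn
    apply div_le_div_of_nonneg_right (min_le_right _ _)
    positivity
  · refine le_trans ?_ hA1
    exact mul_le_mul_of_nonneg_right ((min_le_left _ _).trans (min_le_left _ _)) hnW.le
  · nlinarith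
  · -- all prime
    have h3 : allPrime f n ⊆ almost f K n ∪
        univ.biUnion (fun k => (Ioo 0 n).filter (fun x : ℕ => ((onLine (f k) n).eval (x : ℤ)).natAbs ≤ z)) := by
      intro x hx
      unfold allPrime at hx
      rw [mem_filter] at hx
      rw [mem_union]
      by_cases h4 : x ∈ almost f K n
      · exact Or.inl h4
      · right
        unfold almost at h4
        rw [mem_filter] at h4
        push Not at h4
        obtain ⟨k, p, hp, hpn, hpd⟩ := h4 hx.1
        rw [mem_biUnion]
        refine ⟨k, mem_univ k, ?_⟩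
        rw [mem_filter, eval_onLine]
        refine ⟨hx.1, ?_⟩
        have h5 : p ∣ (val (f k) x (n - x)).natAbs := Int.natCast_dvd.1 hpd
        rw [← (Nat.prime_dvd_prime_iff_eq hp (hx.2 k)).1 h5]
        exact (mem_pr.1 ((hzp p).2 ⟨hp, hpn⟩)).2
    have h4 : (allPrime f n).card ≤ (almost f K n).card + (2 * z + 1) * κ := by
      refine (card_le_card h3).trans ((card_union_le _ _).trans ?_)
      apply Nat.add_le_add_left
      refine card_biUnion_le.trans ?_
      calc ∑ k, ((Ioo 0 n).filter (fun x : ℕ => ((onLine (f k) n).eval (x : ℤ)).natAbs ≤ z)).card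
          ≤ ∑ k, (2 * z + 1) * (f k).totalDegree := by
            apply sum_le_sum
            intro k _
            refine (small_values (natDegree_pos hirr (hadm n hn0).2 k) z n).trans ?_
            exact Nat.mul_le_mul_left _ (natDegree_onLine (f k) n)
        _ = (2 * z + 1) * κ := by rw [← mul_sum, hκ]; rfl
    have h5 : ((allPrime f n).card : ℝ) ≤ (almost f K n).card + (2 * z + 1) * κ := by exact_mod_cast h4
    have hzs : (z : ℝ) ≤ Real.sqrt n := by
      apply Real.le_sqrt_of_sq_le
      have : z ^ 2 ≤ n := (Nat.pow_le_pow_right (by omega) hE2).trans hzE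
      exact_mod_cast this
    have hg := hN4 n hn4
    have hs0 : 0 < Real.sqrt n := Real.sqrt_pos.2 hnr
    have hs := Real.mul_self_sqrt hnr.le
    have hz1r : (1 : ℝ) ≤ z := by exact_mod_cast (by omega : 1 ≤ z)
    have h6 : (2 * (z : ℝ) + 1) * κ ≤ n * V f n := by
      have h7 : (2 * (z : ℝ) + 1) * κ ≤ 3 * (κ + 1) * Real.sqrt n := by
        have hκ0 : (0 : ℝ) ≤ κ := Nat.cast_nonneg _
        nlinarith
      refine h7.trans ?_
      rw [div_le_iff₀ (by positivity)] at hWn
      have hVp : 0 < V f n := by rw [hVW]; exact hWp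
      have h8 : V f n * Real.log n ^ κ ≤ V f n * (cW / (3 * (κ + 1)) * Real.sqrt n) :=
        mul_le_mul_of_nonneg_left hg hVp.le
      have h9 : cW * 1 ≤ cW * (V f n * Real.sqrt n / (3 * (κ + 1))) := by
        calc cW * 1 = cW := mul_one _
          _ ≤ _ := hWn.trans h8
          _ = _ := by ring
      have h10 := le_of_mul_le_mul_left h9 hcW
      rw [le_div_iff₀ (by positivity), one_mul] at h10
      calc 3 * ((κ : ℝ) + 1) * Real.sqrt n ≤ (V f n * Real.sqrt n) * Real.sqrt n :=
            mul_le_mul_of_nonneg_right h10 hs0.le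
        _ = n * V f n := by rw [mul_assoc, hs, mul_comm]
    nlinarith
  · intro j hj
    have h3 := hNj j n (by
      refine le_trans ?_ hnj
      exact single_le_sum (f := Nj) (fun _ _ => Nat.zero_le _) (mem_univ j)) hj
    refine le_trans ?_ h3
    exact mul_le_mul_of_nonneg_right (((min_le_left _ _).trans (min_le_right _ _)).trans (hcLj j)) hnW.le

end Pool.Agent.Q253.Line
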