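import Mathlib

/-! Polynomials of two variables on the lines `x + y = n`: definitions and elementary facts. -/

set_option autoImplicit false

open Finset Polynomial

namespace Pool.Agent.Q253.Line

/-- the value `f(x, y)` -/
noncomputable def val (f : MvPolynomial (Fin 2) ℤ) (x y : ℤ) : ℤ := MvPolynomial.eval ![x, y] f

/-- the polynomial `f(x, n - x)` in `x` -/
noncomputable def onLine (f : MvPolynomial (Fin 2) ℤ) (n : ℕ) : ℤ[X] :=
  MvPolynomial.aeval ![(X : ℤ[X]), C (n : ℤ) - X] f

/-- admissible families: for all large `n` the polynomials `f_k(x, n - x)` are irreducible in `ℤ[x]`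
and no prime divides all values of their product -/
def Admissible {m : ℕ} (f : Fin m → MvPolynomial (Fin 2) ℤ) : Prop :=
  ∃ N₀ : ℕ, ∀ n : ℕ, N₀ ≤ n →
    (∀ k, Irreducible (onLine (f k) n)) ∧
    ∀ p : ℕ, p.Prime → ¬ ∀ x : ℤ, (p : ℤ) ∣ ∏ k, (onLine (f k) n).eval x

/-- the number of residue classes `x` modulo `p` for which `p` divides the product of the
`f_k(x, n - x)` -/
noncomputable def rho {m : ℕ} (f : Fin m → MvPolynomial (Fin 2) ℤ) (n p : ℕ) : ℕ :=
  ((range p).filter (fun x : ℕ => (p : ℤ) ∣ ∏ k, (onLine (f k) n).eval (x : ℤ))).card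

/-- the product of the `1 - ρ(p) / p` over the primes `p ≤ n` -/
noncomputable def V {m : ℕ} (f : Fin m → MvPolynomial (Fin 2) ℤ) (n : ℕ) : ℝ :=
  ∏ p ∈ (Icc 1 n).filter Nat.Prime, (1 - (rho f n p : ℝ) / p)

theorem eval_onLine (f : MvPolynomial (Fin 2) ℤ) (n : ℕ) (x : ℤ) :
    (onLine f n).eval x = val f x (n - x) := by
  unfold onLine val
  rw [← Polynomial.coe_evalRingHom, MvPolynomial.aeval_def, MvPolynomial.hom_eval₂]
  have h1 : (Polynomial.evalRingHom x).comp (algebraMap ℤ ℤ[X]) = RingHom.id ℤ :=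
    Subsingleton.elim _ _
  rw [h1]
  have h2 : (fun i => (Polynomial.evalRingHom x) (![(X : ℤ[X]), C (n : ℤ) - X] i)) =
      ![x, (n : ℤ) - x] := by
    funext i
    fin_cases i <;> simp
  rw [h2]
  rfl

theorem natDegree_onLine (f : MvPolynomial (Fin 2) ℤ) (n : ℕ) :
    (onLine f n).natDegree ≤ f.totalDegree := by
  have h := MvPolynomial.aeval_natDegree_le (m := f.totalDegree) f le_rfl
    ![(X : ℤ[X]), C (n : ℤ) - X] (n := 1) (by
      intro i
      fin_cases i
      · exact natDegree_X_le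
      · have : (C (n : ℤ) - X : ℤ[X]).natDegree ≤ 1 := by
          refine (natDegree_sub_le _ _).trans ?_
          simp
        exact this)
  rw [mul_one] at h
  exact h

/-- size of the values -/
theorem abs_val_le (f : MvPolynomial (Fin 2) ℤ) : ∃ L : ℕ, ∀ (n : ℕ) (x y : ℤ), 1 ≤ n → |x| ≤ n → |y| ≤ n →
    |val f x y| ≤ L * (n : ℤ) ^ f.totalDegree := by
  refine ⟨∑ d ∈ f.support, (f.coeff d).natAbs, fun n x y hn hx hy => ?_⟩
  unfold val
  rw [MvPolynomial.eval_eq']
  refine (Finset.abs_sum_le_sum_abs _ _).trans ?_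
  push_cast
  rw [Finset.sum_mul]
  apply Finset.sum_le_sum
  intro d hd
  rw [abs_mul, Finset.abs_prod]
  have hn' : (1 : ℤ) ≤ n := by exact_mod_cast hn
  have h1 : ∏ i : Fin 2, |(![x, y] i) ^ (d i)| ≤ (n : ℤ) ^ f.totalDegree := by
    have h2 : ∏ i : Fin 2, |(![x, y] i) ^ (d i)| ≤ ∏ i : Fin 2, (n : ℤ) ^ (d i) := by
      apply Finset.prod_le_prod
      · intro i _
        exact abs_nonneg _
      · intro i _
        rw [abs_pow]
        apply pow_le_pow_left₀ (abs_nonneg _)
        fin_cases i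
        · simpa using hx
        · simpa using hy
    refine h2.trans ?_
    rw [Finset.prod_pow_eq_pow_sum]
    apply pow_le_pow_right₀ hn'
    have h3 := MvPolynomial.le_totalDegree hd
    rw [Finsupp.sum_fintype _ _ (fun _ => rfl)] at h3
    exact h3
  exact mul_le_mul_of_nonneg_left h1 (abs_nonneg _)

end Pool.Agent.Q253.Line
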