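import Pool.Agent.Q253.Line.PrimeC

/-! One linear polynomial takes prime values: the lower bound. -/

set_option autoImplicit false

open Finset Polynomial

namespace Pool.Agent.Q253.Line

open Pool.Agent.TH423.SH

theorem W_le_Q {G : ℤ[X]} {s A B : ℤ} {m₀ R n : ℕ} (hF : NFD ((C A * X + C B) * G))
    (hA : ∀ p ∈ PS m₀ R, ¬ (p : ℤ) ∣ A) (hR : R ≤ n) :
    (0 ≤ ∏ p ∈ PS m₀ R, (1 - ((Om G s A B p).card : ℝ) / ((p : ℝ) - 1))) ∧
    W ((C A * X + C B) * G) n ≤ (∏ p ∈ PS m₀ R, (1 - 1 / (p : ℝ))) *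
      ∏ p ∈ PS m₀ R, (1 - ((Om G s A B p).card : ℝ) / ((p : ℝ) - 1)) := by
  classical
  have hP : ∀ p ∈ PS m₀ R, p.Prime ∧ p ≤ R := by
    intro p hp
    unfold PS at hp
    rw [mem_filter, mem_Icc] at hp
    exact ⟨hp.2.1, hp.1.2⟩
  have hcard : ∀ p ∈ PS m₀ R, ((Om G s A B p).card : ℝ) + 1 ≤ rt ((C A * X + C B) * G) p ∧
      (rt ((C A * X + C B) * G) p : ℝ) + 1 ≤ p := by
    intro p hp
    have h1 := Om_rt G s A B (hP p hp).1 (hA p hp)
    have h2 := rt_lt (hP p hp).1 (hF p (hP p hp).1)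
    exact ⟨by exact_mod_cast h1, by exact_mod_cast h2⟩
  constructor
  · apply prod_nonneg
    intro p hp
    obtain ⟨h1, h2⟩ := hcard p hp
    have h3 : (2 : ℝ) ≤ p := by exact_mod_cast (hP p hp).1.two_le
    have h4 : ((Om G s A B p).card : ℝ) / ((p : ℝ) - 1) ≤ 1 := by
      rw [div_le_one (by linarith)]
      linarith
    linarith
  · have h0 : PS m₀ R ⊆ pr n := by
      intro p hp
      exact mem_pr.2 ⟨(hP p hp).1, (hP p hp).2.trans hR⟩
    refine (W_le_prod hF h0).trans ?_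
    rw [← Finset.prod_mul_distrib]
    apply Finset.prod_le_prod
    · intro p hp
      have h1 := (fac_mem hF (hP p hp).1).1
      have h2 : (0 : ℝ) ≤ 1 / p := by positivity
      linarith
    · intro p hp
      obtain ⟨h1, h2⟩ := hcard p hp
      have h3 : (2 : ℝ) ≤ p := by exact_mod_cast (hP p hp).1.two_le
      have h4 : (0 : ℝ) < p - 1 := by linarith
      have h5 : (0 : ℝ) < p := by linarith
      have h6 : (1 - 1 / (p : ℝ)) * (1 - ((Om G s A B p).card : ℝ) / ((p : ℝ) - 1)) =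
          1 - (((Om G s A B p).card : ℝ) + 1) / p := by
        field_simp
        ring
      rw [h6]
      have h7 : (((Om G s A B p).card : ℝ) + 1) / p ≤ (rt ((C A * X + C B) * G) p : ℝ) / p :=
        div_le_div_of_nonneg_right h1 h5.le
      linarith

theorem lowerB : ∃ K : ℕ, 1 ≤ K ∧ ∀ (κ : ℕ) (a b c : ℤ), a ≠ b → ∀ δ : ℝ, 0 < δ →
    ∃ c0 : ℝ, 0 < c0 ∧ ∃ N : ℕ, ∀ n : ℕ, N ≤ n → ∀ z : ℕ, 2 ≤ z → z ^ (K * (κ + 1)) ≤ n →
    δ * Real.log n ≤ Real.log z → ∀ G : ℤ[X], G.natDegree ≤ κ →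
    NFD ((C (a - b) * X + C (b * n + c)) * G) →
    c0 * (n * W ((C (a - b) * X + C (b * n + c)) * G) n) ≤ ((good G (a - b) (b * n + c) z n).card : ℝ) := by
  classical
  obtain ⟨C', hC1, hpsl⟩ := Pool.Agent.Y835.SC.psl
  refine ⟨12 * C' ^ 2, by nlinarith, ?_⟩
  intro κ a b c hab δ hδ
  set bb := C' * (κ + 1) with hbb
  set w := max bb (a - b).natAbs with hw
  set M := ∏ p ∈ pr w, p with hM
  have hM0 : 0 < M := prod_pos fun p hp => (mem_pr.1 hp).1.pos
  have hA0 : a - b ≠ 0 := sub_ne_zero.2 hab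
  have hA1 : 0 < (a - b).natAbs := Int.natAbs_pos.2 hA0
  set m₀ := (a - b).natAbs * M with hm₀
  have hm1 : 1 ≤ m₀ := Nat.mul_pos hA1 hM0
  have hprM : ∀ p, p.Prime → p ≤ w → p ∣ M := by
    intro p hp hpw
    exact dvd_prod_of_mem (fun p => p) (mem_pr.2 ⟨hp, hpw⟩)
  have hprw : ∀ p, p.Prime → p ∣ m₀ → p ≤ w := by
    intro p hp hd
    rcases (Nat.Prime.dvd_mul hp).1 hd with h | h
    · exact (Nat.le_of_dvd hA1 h).trans (le_max_right _ _)
    · obtain ⟨q, hq, hpq⟩ := (Prime.dvd_finsetProd_iff hp.prime (fun q => q)).1 h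
      have h1 := mem_pr.1 hq
      rw [(Nat.prime_dvd_prime_iff_eq hp h1.1).1 hpq]
      exact h1.2
  obtain ⟨X0, hX0⟩ := hpsl κ bb m₀ (κ + 2) le_rfl hm1 (by
    intro p hp hpb
    exact (hprM p hp (hpb.trans (le_max_left _ _))).mul_left _)
  obtain ⟨s, hs, h, hh1, N0, huv⟩ := choose_uv a b c hab
  have hhr : (1 : ℝ) ≤ h := by exact_mod_cast hh1
  obtain ⟨x0, hpai⟩ := pai 1 le_rfl (1 / 2) (1 / (5 * h)) (by norm_num) (by positivity)
  obtain ⟨cM, hcM, hMp⟩ := mert_prod m₀ hm1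
  obtain ⟨cW, hcW, hW⟩ := W_lower (κ + 1)
  set φ : ℝ := (Nat.totient m₀ : ℝ) with hφ
  have hφ0 : 0 < φ := by
    rw [hφ]
    exact_mod_cast Nat.totient_pos.2 (by omega)
  obtain ⟨N1, hN1⟩ : ∃ N1 : ℕ, ∀ n : ℕ, N1 ≤ n →
      (h * 2 ^ (κ + 2) * (80 * φ * cM)) / (cW * δ) + Real.log 3 / δ ≤ Real.log n := by
    have h1 : Filter.Tendsto (fun n : ℕ => Real.log n) Filter.atTop Filter.atTop :=
      (Real.tendsto_log_atTop.comp (tendsto_natCast_atTop_atTop (R := ℝ)))
    exact Filter.eventually_atTop.1 (h1.eventually_ge_atTop _)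
  refine ⟨δ / (80 * φ * cM), by positivity, max (max N0 N1) (max (2 * X0) (max (2 * ⌈x0⌉₊) (h + 40))), ?_⟩
  intro n hn z hz hzn hlz G hG hF
  simp only [max_le_iff] at hn
  obtain ⟨⟨hn0, hn1⟩, hn2, hn3, hn4⟩ := hn
  obtain ⟨u, v, huv1, huv2, huv3, huv4, huv5, huv6⟩ := huv n hn0
  obtain ⟨J, hJ1, hJ2⟩ := exists_J z hz
  obtain ⟨x1, hx1, hx2, hx3⟩ := exists_nat hF w
  set A := a - b with hA
  set B := b * (n : ℤ) + c with hB
  set F := (C A * X + C B) * G with hFd
  set R := 2 ^ 2 ^ J with hR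
  have hnr : (0 : ℝ) < n := by exact_mod_cast (by omega : 0 < n)
  have hln : 0 < Real.log n := by
    apply Real.log_pos
    exact_mod_cast (by omega : 1 < n)
  have hC2 : 1 ≤ C' ^ 2 := Nat.one_le_pow _ _ hC1
  have hzn2 : z ^ 2 ≤ n := by
    refine le_trans (Nat.pow_le_pow_right (by omega) ?_) hzn
    nlinarith
  have hzu : z ≤ u := by
    by_contra hcon
    push Not at hcon
    nlinarith
  have hRn : R ≤ n := hJ2.trans hzn2
  have hlev : (R ^ (C' * bb)) ^ 3 ≤ v := by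
    have h1 : ((R ^ (C' * bb)) ^ 3) ^ 2 ≤ n := by
      calc ((R ^ (C' * bb)) ^ 3) ^ 2 ≤ (((z ^ 2) ^ (C' * bb)) ^ 3) ^ 2 :=
            Nat.pow_le_pow_left (Nat.pow_le_pow_left (Nat.pow_le_pow_left hJ2 _) _) _
        _ = z ^ (12 * C' ^ 2 * (κ + 1)) := by
            rw [← pow_mul, ← pow_mul, ← pow_mul, hbb]
            congr 1
            ring
        _ ≤ n := hzn
    generalize (R ^ (C' * bb)) ^ 3 = Y at h1
    by_contra hcon
    push Not at hcon
    have h2 : Y * Y ≤ n := by rw [← pow_two]; exact h1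
    have h3 : 2 ≤ Y := by omega
    have h4 : 2 * Y ≤ Y * Y := Nat.mul_le_mul_right Y h3
    omega
  -- the class
  set a0 : ℕ := ((s * (A * x1 + B)) % m₀).toNat with ha0
  have hm0z : (0 : ℤ) < m₀ := by exact_mod_cast hm1
  have ha0' : (a0 : ℤ) = (s * (A * x1 + B)) % m₀ := Int.toNat_of_nonneg (Int.emod_nonneg _ hm0z.ne')
  have ha0d : (m₀ : ℤ) ∣ a0 - s * (A * x1 + B) := by
    rw [ha0']
    obtain ⟨k, hk⟩ := Int.dvd_self_sub_emod (x := s * (A * x1 + B)) (m := (m₀ : ℤ))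
    exact ⟨-k, by linarith⟩
  have hMdvd : ∀ p : ℕ, p.Prime → p ∣ m₀ → p ∣ M ∧ ¬ (p : ℤ) ∣ F.eval (x1 : ℤ) := by
    intro p hp hd
    have h1 := hprw p hp hd
    exact ⟨hprM p hp h1, hx3 p (mem_pr.2 ⟨hp, h1⟩)⟩
  have hcop : a0.Coprime m₀ := by
    rw [Nat.coprime_iff_gcd_eq_one]
    by_contra hcon
    obtain ⟨p, hp, hpd⟩ := Nat.exists_prime_and_dvd hcon
    have h1 : p ∣ a0 := hpd.trans (Nat.gcd_dvd_left _ _)
    have h2 : p ∣ m₀ := hpd.trans (Nat.gcd_dvd_right _ _)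
    apply (hMdvd p hp h2).2
    have h3 : (p : ℤ) ∣ m₀ := by exact_mod_cast h2
    have h4 : (p : ℤ) ∣ a0 := by exact_mod_cast h1
    have h5 := (dvd_sub_right h4).1 (h3.trans ha0d)
    rw [hFd, eval_mul]
    apply Dvd.dvd.mul_right
    simp only [eval_add, eval_mul, eval_C, eval_X]
    rcases hs with rfl | rfl
    · simpa using h5
    · have h6 : (p : ℤ) ∣ -(A * x1 + B) := by simpa using h5
      exact (dvd_neg).1 h6
  have hGp : ∀ p : ℕ, p.Prime → ∃ x : ℤ, ¬ (p : ℤ) ∣ G.eval x := by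
    intro p hp
    obtain ⟨x, hx⟩ := hF p hp
    refine ⟨x, fun hd => hx ?_⟩
    rw [hFd, eval_mul]
    exact Dvd.dvd.mul_left hd _
  have hPSp : ∀ p ∈ PS m₀ R, p.Prime ∧ ¬ p ∣ m₀ := by
    intro p hp
    unfold PS at hp
    rw [mem_filter, mem_Icc] at hp
    exact ⟨hp.2.1, hp.2.2⟩
  have key := hX0 u v J a0 (by omega) huv2 hlev hcop (Om G s A B) (by
    intro p hp
    have hpp := (hPSp p hp).1
    exact ⟨(Om_card hpp (hGp p hpp)).trans hG, Om_zero hs hpp, fun c hc => Om_lt hpp hc⟩)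
  rw [← hR] at key
  have htr := transfer (G := G) (B := B) (n := n) hs hA0 hFd hm₀ hMdvd ha0d hJ1 hzu huv6
  have htr' : (((Ioc u v).filter (fun q => q.Prime ∧ q % m₀ = a0 % m₀ ∧
      ∀ p ∈ PS m₀ R, q % p ∉ Om G s A B p)).card : ℝ) ≤ (good G A B z n).card := by exact_mod_cast htr
  -- the number of primes
  have hvr : (n : ℝ) ≤ 2 * v := by
    have : n ≤ 2 * v := by omega
    exact_mod_cast this
  have hvh : (v : ℝ) ≤ h * n := by exact_mod_cast huv3
  have hvpos : (0 : ℝ) < v := by linarith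
  have hvu : (n : ℝ) ≤ 5 * (v - u) := by
    have h1 : ((n : ℕ) : ℝ) ≤ ((5 * (v - u) : ℕ) : ℝ) := by exact_mod_cast huv4
    rw [Nat.cast_mul, Nat.cast_sub huv2] at h1
    simpa using h1
  have hp1 := hpai (v : ℝ) (by
      have h1 : x0 ≤ ⌈x0⌉₊ := Nat.le_ceil _
      have h2 : ((2 * ⌈x0⌉₊ : ℕ) : ℝ) ≤ n := by exact_mod_cast hn3
      push_cast at h2
      linarith) u v 1 (by
      have h1 : (v : ℝ) ≤ 2 * u := by exact_mod_cast huv5
      linarith) (by linarith) (by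
      have h1 : 1 / (5 * (h : ℝ)) * v ≤ n / 5 := by
        rw [div_mul_eq_mul_div, one_mul, div_le_div_iff₀ (by positivity) (by norm_num)]
        nlinarith
      linarith) (Nat.coprime_one_left _)
  have hlv : 0 < Real.log v := by
    apply Real.log_pos
    have h1 : (40 : ℝ) ≤ n := by exact_mod_cast (by omega : 40 ≤ n)
    linarith
  have hfl : (Ioc u v).filter (fun q => q.Prime ∧ q % 1 = 1 % 1) = (Ioc u v).filter Nat.Prime := by
    apply filter_congr
    intro q _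
    simp [Nat.mod_one]
  rw [hfl, Nat.totient_one, Nat.cast_one, one_mul] at hp1
  have hp2 : (1 / 2 : ℝ) * (((v : ℝ) - u) / Real.log v) ≤ ((Ioc u v).filter Nat.Prime).card := by
    have := (abs_le.1 hp1).1
    linarith
  have hlv2 : Real.log v ≤ 2 * Real.log n := by
    have h1 : (v : ℝ) ≤ (n : ℝ) ^ 2 := by
      have h2 : (h : ℝ) ≤ n := by exact_mod_cast (by omega : h ≤ n)
      nlinarith
    calc Real.log v ≤ Real.log ((n : ℝ) ^ 2) := Real.log_le_log hvpos h1
      _ = 2 * Real.log n := by rw [Real.log_pow]; norm_num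
  have hlv3 : Real.log n ≤ 2 * Real.log v := by
    have h1 : (n : ℝ) ≤ (v : ℝ) ^ 2 := by
      have h3 : (40 : ℝ) ≤ n := by exact_mod_cast (by omega : 40 ≤ n)
      nlinarith
    calc Real.log n ≤ Real.log ((v : ℝ) ^ 2) := Real.log_le_log hnr h1
      _ = 2 * Real.log v := by rw [Real.log_pow]; norm_num
  have hp3 : (n : ℝ) / (20 * Real.log n) ≤ ((Ioc u v).filter Nat.Prime).card := by
    refine le_trans ?_ hp2
    have h1 : (n : ℝ) / 5 / (2 * Real.log n) ≤ ((v : ℝ) - u) / Real.log v := by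
      apply div_le_div₀ (by linarith) (by linarith) hlv hlv2
    calc (n : ℝ) / (20 * Real.log n) = (1 / 2) * ((n : ℝ) / 5 / (2 * Real.log n)) := by
          field_simp
          norm_num
      _ ≤ _ := mul_le_mul_of_nonneg_left h1 (by norm_num)
  -- the products
  obtain ⟨hQ0, hWQ⟩ := W_le_Q (G := G) (s := s) (A := A) (B := B) (m₀ := m₀) (R := R) (n := n) hF (by
    intro p hp hd
    apply (hPSp p hp).2
    have h1 : p ∣ A.natAbs := by
      have := Int.natAbs_dvd_natAbs.2 hd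
      simpa using this
    exact h1.mul_right _) hRn
  set Q := ∏ p ∈ PS m₀ R, (1 - ((Om G s A B p).card : ℝ) / ((p : ℝ) - 1)) with hQ
  have hlarge := hN1 n hn1
  have hl3 : 0 < Real.log 3 := Real.log_pos (by norm_num)
  have hR3 : 3 ≤ R := by
    refine le_trans ?_ hJ1
    have h1 : Real.log 3 ≤ Real.log z := by
      refine le_trans ?_ hlz
      have h2 : 0 ≤ (h * 2 ^ (κ + 2) * (80 * φ * cM)) / (cW * δ) := by positivity
      have h3 : Real.log 3 / δ ≤ Real.log n := by linarith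
      rw [div_le_iff₀ hδ] at h3
      linarith
    rw [Real.log_le_log_iff (by norm_num) (by exact_mod_cast (by omega : 0 < z))] at h1
    exact_mod_cast h1
  have hMR := hMp R hR3
  have hlR : δ * Real.log n ≤ Real.log R := by
    refine hlz.trans (Real.log_le_log (by exact_mod_cast (by omega : 0 < z)) ?_)
    exact_mod_cast hJ1
  have hδn : 0 < δ * Real.log n := by positivity
  have hWQ2 : W F n * (δ * Real.log n) ≤ cM * Q := by
    have h1 : W F n ≤ cM / (δ * Real.log n) * Q := by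
      refine hWQ.trans (mul_le_mul_of_nonneg_right (hMR.trans ?_) hQ0)
      exact div_le_div_of_nonneg_left hcM.le hδn hlR
    have h2 := mul_le_mul_of_nonneg_right h1 hδn.le
    calc W F n * (δ * Real.log n) ≤ cM / (δ * Real.log n) * Q * (δ * Real.log n) := h2
      _ = cM * Q := by field_simp
  -- the error term
  have hWn := hW n (by omega) F hF (by
    rw [hFd]
    refine (natDegree_mul_le).trans ?_
    have h1 : (C A * X + C B : ℤ[X]).natDegree ≤ 1 := natDegree_linear_le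
    omega)
  have hWp := W_pos hF n
  have herr : (v : ℝ) / Real.log v ^ (κ + 2) ≤ δ / (80 * φ * cM) * (n * W F n) := by
    have h1 : (Real.log n / 2) ^ (κ + 2) ≤ Real.log v ^ (κ + 2) :=
      pow_le_pow_left₀ (by positivity) (by linarith) _
    have h2 : (v : ℝ) / Real.log v ^ (κ + 2) ≤ h * n / (Real.log n / 2) ^ (κ + 2) :=
      div_le_div₀ (by positivity) hvh (by positivity) h1
    refine h2.trans ?_
    have h3 : (h * 2 ^ (κ + 2) * (80 * φ * cM)) / (cW * δ) ≤ Real.log n := by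
      have : 0 < Real.log 3 / δ := by positivity
      linarith
    rw [div_le_iff₀ (by positivity)] at h3
    rw [div_le_iff₀ (by positivity)] at hWn
    have h4 : δ / (80 * φ * cM) * (n * W F n) =
        (δ * (n * W F n)) / (80 * φ * cM) := by ring
    rw [h4, div_pow, div_div_eq_mul_div, div_le_div_iff₀ (by positivity) (by positivity)]
    -- h n 2^(κ+2) (80 φ cM) ≤ δ n W L^(κ+2)
    calc (h : ℝ) * n * 2 ^ (κ + 2) * (80 * φ * cM) = n * (h * 2 ^ (κ + 2) * (80 * φ * cM)) := by ring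
      _ ≤ n * (Real.log n * (cW * δ)) := mul_le_mul_of_nonneg_left h3 hnr.le
      _ = n * δ * Real.log n * cW := by ring
      _ ≤ n * δ * Real.log n * (W F n * Real.log n ^ (κ + 1)) :=
          mul_le_mul_of_nonneg_left hWn (by positivity)
      _ = δ * (n * W F n) * Real.log n ^ (κ + 2) := by ring
  -- the main term
  have hb2 : (1 / 2 : ℝ) ≤ 1 - (1 / 2 : ℝ) ^ bb := by
    have h1 : (1 / 2 : ℝ) ^ bb ≤ (1 / 2 : ℝ) ^ 1 :=
      pow_le_pow_of_le_one (by norm_num) (by norm_num) (Nat.mul_pos (by omega) (by omega))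
    rw [pow_one] at h1
    linarith
  have hmain : 2 * (δ / (80 * φ * cM) * (n * W F n)) ≤
      (1 - (1 / 2 : ℝ) ^ bb) * ((((Ioc u v).filter Nat.Prime).card : ℝ) / φ) * Q := by
    have h1 : (1 / 2 : ℝ) * ((n / (20 * Real.log n)) / φ) * Q ≤
        (1 - (1 / 2 : ℝ) ^ bb) * ((((Ioc u v).filter Nat.Prime).card : ℝ) / φ) * Q := by
      apply mul_le_mul_of_nonneg_right _ hQ0
      exact mul_le_mul hb2 (div_le_div_of_nonneg_right hp3 hφ0.le) (by positivity) (by linarith)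
    refine le_trans ?_ h1
    have h2 : 2 * (δ / (80 * φ * cM) * (n * W F n)) = (W F n * (δ * Real.log n)) * (n / (40 * φ * cM * Real.log n)) := by
      field_simp
      ring
    have h3 : (1 / 2 : ℝ) * ((n / (20 * Real.log n)) / φ) * Q = (cM * Q) * (n / (40 * φ * cM * Real.log n)) := by
      field_simp
      ring
    rw [h2, h3]
    exact mul_le_mul_of_nonneg_right hWQ2 (by positivity)
  have hfin : (1 - (1 / 2 : ℝ) ^ bb) * ((((Ioc u v).filter Nat.Prime).card : ℝ) / φ) * Q -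
      v / Real.log v ^ (κ + 2) ≤ ((good G A B z n).card : ℝ) := by
    refine le_trans ?_ htr'
    convert key
    rfl
  linarith

end Pool.Agent.Q253.Line
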