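import Pool.Agent.Q253.Line.Basic
import Pool.Agent.Q253.Line.PrimeD

/-! Assembly: families of polynomials on the lines `x + y = n`. -/

set_option autoImplicit false

open Finset Polynomial

namespace Pool.Agent.Q253.Line

/-- the sum of the total degrees -/
noncomputable def deg {m : ℕ} (f : Fin m → MvPolynomial (Fin 2) ℤ) : ℕ := ∑ k, (f k).totalDegree

/-- the `x`, `0 < x < n`, such that no prime `p ≤ n ^ (1 / (K (deg f + 1)))` divides one of the
numbers `f_k(x, n - x)` -/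
noncomputable def almost {m : ℕ} (f : Fin m → MvPolynomial (Fin 2) ℤ) (K n : ℕ) : Finset ℕ := by
  classical
  exact (Ioo 0 n).filter (fun x : ℕ => ∀ k, ∀ p : ℕ, p.Prime → p ^ (K * (deg f + 1)) ≤ n →
    ¬ (p : ℤ) ∣ val (f k) x (n - x))

/-- the product of the polynomials on the line -/
noncomputable def FF {m : ℕ} (f : Fin m → MvPolynomial (Fin 2) ℤ) (n : ℕ) : ℤ[X] := ∏ k, onLine (f k) n

theorem V_eq {m : ℕ} (f : Fin m → MvPolynomial (Fin 2) ℤ) (n : ℕ) : V f n = W (FF f n) n := by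
  unfold V W pr rho rt FF
  apply prod_congr rfl
  intro p _
  simp only [eval_prod]

theorem deg_FF {m : ℕ} (f : Fin m → MvPolynomial (Fin 2) ℤ) (n : ℕ) : (FF f n).natDegree ≤ deg f := by
  unfold FF deg
  refine (natDegree_prod_le _ _).trans ?_
  apply sum_le_sum
  intro k _
  exact natDegree_onLine (f k) n

theorem nfd {m : ℕ} {f : Fin m → MvPolynomial (Fin 2) ℤ} {n : ℕ}
    (h : ∀ p : ℕ, p.Prime → ¬ ∀ x : ℤ, (p : ℤ) ∣ ∏ k, (onLine (f k) n).eval x) : NFD (FF f n) := by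
  intro p hp
  have h1 := h p hp
  push Not at h1
  obtain ⟨x, hx⟩ := h1
  refine ⟨x, ?_⟩
  unfold FF
  rwa [eval_prod]

/-- the largest `z` with `z ^ E ≤ n` -/
theorem exists_z (E n : ℕ) (hE : 1 ≤ E) (hn : 2 ^ E ≤ n) : ∃ z : ℕ, 2 ≤ z ∧ z ^ E ≤ n ∧
    (∀ p : ℕ, p ∈ pr z ↔ p.Prime ∧ p ^ E ≤ n) ∧ 1 / (2 * (E : ℝ)) * Real.log n ≤ Real.log z := by
  set z := Nat.findGreatest (fun z => z ^ E ≤ n) n with hz
  have h2n : 2 ≤ n := by
    have : 2 ^ 1 ≤ 2 ^ E := Nat.pow_le_pow_right (by norm_num) hE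
    omega
  have h1 : z ^ E ≤ n := Nat.findGreatest_spec (P := fun z => z ^ E ≤ n) h2n hn
  have h2 : 2 ≤ z := Nat.le_findGreatest h2n hn
  refine ⟨z, h2, h1, fun p => ?_, ?_⟩
  · rw [mem_pr]
    constructor
    · rintro ⟨a, b⟩
      exact ⟨a, (Nat.pow_le_pow_left b E).trans h1⟩
    · rintro ⟨a, b⟩
      refine ⟨a, Nat.le_findGreatest ?_ b⟩
      exact (Nat.le_self_pow (by omega) p).trans b
  · have h3 : n < (z + 1) ^ E := by
      by_contra hcon
      push Not at hcon
      have h4 : z + 1 ≤ n := (Nat.le_self_pow (by omega) (z + 1)).trans hcon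
      have h5 : z + 1 ≤ z := Nat.le_findGreatest h4 hcon
      omega
    have h4 : (n : ℝ) ≤ ((z : ℝ) ^ 2) ^ E := by
      have h5 : z + 1 ≤ z ^ 2 := by nlinarith
      have h6 : n ≤ (z ^ 2) ^ E := h3.le.trans (Nat.pow_le_pow_left h5 E)
      exact_mod_cast h6
    have hn0 : (0 : ℝ) < n := by exact_mod_cast (by omega : 0 < n)
    have hE0 : (0 : ℝ) < E := by exact_mod_cast hE
    have h5 := Real.log_le_log hn0 h4
    rw [Real.log_pow, Real.log_pow] at h5
    rw [div_mul_eq_mul_div, one_mul, div_le_iff₀ (by positivity)]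
    push_cast at h5
    linarith

theorem almost_eq {m : ℕ} (f : Fin m → MvPolynomial (Fin 2) ℤ) {K n z : ℕ}
    (hz : ∀ p : ℕ, p ∈ pr z ↔ p.Prime ∧ p ^ (K * (deg f + 1)) ≤ n) :
    almost f K n = rough (FF f n) z n := by
  classical
  unfold almost rough
  ext x
  simp only [mem_filter]
  apply and_congr_right
  intro _
  constructor
  · intro h p hp hd
    obtain ⟨h1, h2⟩ := (hz p).1 hp
    unfold FF at hd
    rw [eval_prod] at hd
    obtain ⟨k, _, hk⟩ := (Prime.dvd_finsetProd_iff (Nat.prime_iff_prime_int.1 h1) _).1 hd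
    rw [eval_onLine] at hk
    exact h k p h1 h2 hk
  · intro h k p hp hpn hd
    apply h p ((hz p).2 ⟨hp, hpn⟩)
    unfold FF
    rw [eval_prod]
    rw [← eval_onLine] at hd
    exact hd.trans (dvd_prod_of_mem _ (mem_univ k))

/-- on an admissible family the polynomials are not constant on the lines -/
theorem natDegree_pos {m : ℕ} {f : Fin m → MvPolynomial (Fin 2) ℤ} {n : ℕ}
    (h1 : ∀ k, Irreducible (onLine (f k) n))
    (h2 : ∀ p : ℕ, p.Prime → ¬ ∀ x : ℤ, (p : ℤ) ∣ ∏ k, (onLine (f k) n).eval x) (k : Fin m) :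
    1 ≤ (onLine (f k) n).natDegree := by
  by_contra hcon
  push Not at hcon
  have h3 : (onLine (f k) n).natDegree = 0 := by omega
  obtain ⟨t, ht⟩ := natDegree_eq_zero.1 h3
  have h4 := h1 k
  have h5 : t.natAbs ≠ 1 := by
    intro h5
    apply h4.not_isUnit
    rw [← ht]
    exact isUnit_C.2 (Int.isUnit_iff_natAbs_eq.2 h5)
  obtain ⟨p, hp, hpd⟩ := Nat.exists_prime_and_dvd h5
  apply h2 p hp
  intro x
  refine dvd_trans ?_ (dvd_prod_of_mem _ (mem_univ k))
  rw [← ht, eval_C]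
  exact Int.natCast_dvd.2 hpd

/-- the number of prime factors -/
theorem omega_le {y n E d L : ℕ} (hy : y ≠ 0) (hyL : y ≤ L * n ^ d) (hn : L ^ E < n)
    (hp : ∀ p : ℕ, p.Prime → p ∣ y → n < p ^ E) :
    ArithmeticFunction.cardFactors y ≤ E * d := by
  rw [ArithmeticFunction.cardFactors_apply]
  have h1 : ∀ l : List ℕ, (∀ p ∈ l, n ≤ p ^ E) → n ^ l.length ≤ l.prod ^ E := by
    intro l
    induction l with
    | nil => intro _; simp
    | cons a l ih =>
      intro h
      rw [List.length_cons, List.prod_cons, mul_pow, pow_succ, mul_comm]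
      apply Nat.mul_le_mul
      · exact h a (List.mem_cons_self)
      · exact ih (fun p hp => h p (List.mem_cons_of_mem a hp))
  have h2 := h1 y.primeFactorsList (fun p hpm => by
    rw [Nat.mem_primeFactorsList hy] at hpm
    exact (hp p hpm.1 hpm.2).le)
  rw [Nat.prod_primeFactorsList hy] at h2
  by_contra hcon
  push Not at hcon
  have hn0 : 0 < n := by omega
  have h3 : n ^ (E * d + 1) ≤ n ^ y.primeFactorsList.length := Nat.pow_le_pow_right hn0 hcon
  have h4 : y ^ E ≤ L ^ E * n ^ (E * d) := by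
    calc y ^ E ≤ (L * n ^ d) ^ E := Nat.pow_le_pow_left hyL E
      _ = L ^ E * n ^ (E * d) := by rw [mul_pow, ← pow_mul, mul_comm d E]
  have h5 : L ^ E * n ^ (E * d) < n * n ^ (E * d) := Nat.mul_lt_mul_of_pos_right hn (by positivity)
  have h6 : n * n ^ (E * d) = n ^ (E * d + 1) := by rw [pow_succ, mul_comm]
  omega

end Pool.Agent.Q253.Line
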