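import Pool.Agent.Q253.Line.SieveB
import Pool.Agent.Y835.SC.Psl
import Pool.Agent.TH423.SH.PAIP

/-! One linear polynomial takes prime values. -/

set_option autoImplicit false

open Finset Polynomial

namespace Pool.Agent.Q253.Line

open Pool.Agent.TH423.SH

/-- the classes of the values of the linear form at the zeros of `G` -/
noncomputable def Om (G : ℤ[X]) (s A B : ℤ) (p : ℕ) : Finset ℕ :=
  ((range p).filter (fun x : ℕ => (p : ℤ) ∣ G.eval (x : ℤ) ∧ ¬ (p : ℤ) ∣ A * x + B)).image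
    (fun x : ℕ => ((s * (A * x + B)) % p).toNat)

theorem Om_card {G : ℤ[X]} {s A B : ℤ} {p : ℕ} (hp : p.Prime) (h : ∃ x : ℤ, ¬ (p : ℤ) ∣ G.eval x) :
    (Om G s A B p).card ≤ G.natDegree := by
  refine (card_image_le).trans ?_
  refine le_trans ?_ (rt_le hp h)
  apply card_le_card
  intro x hx
  rw [mem_filter] at hx ⊢
  exact ⟨hx.1, hx.2.1⟩

theorem Om_lt {G : ℤ[X]} {s A B : ℤ} {p : ℕ} (hp : p.Prime) {c : ℕ} (hc : c ∈ Om G s A B p) : c < p := by
  unfold Om at hc
  rw [mem_image] at hc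
  obtain ⟨x, _, rfl⟩ := hc
  have hp0 : (0 : ℤ) < p := by exact_mod_cast hp.pos
  have h1 := Int.emod_lt_of_pos (s * (A * x + B)) hp0
  have h2 := Int.emod_nonneg (s * (A * x + B)) hp0.ne'
  omega

theorem Om_zero {G : ℤ[X]} {s A B : ℤ} (hs : s = 1 ∨ s = -1) {p : ℕ} (hp : p.Prime) : 0 ∉ Om G s A B p := by
  unfold Om
  rw [mem_image]
  rintro ⟨x, hx, h⟩
  rw [mem_filter] at hx
  have hp0 : (0 : ℤ) < p := by exact_mod_cast hp.pos
  have h2 := Int.emod_nonneg (s * (A * x + B)) hp0.ne'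
  have h3 : (s * (A * x + B)) % p = 0 := by omega
  have h4 := Int.dvd_of_emod_eq_zero h3
  apply hx.2.2
  rcases hs with rfl | rfl
  · simpa using h4
  · have h5 : (p : ℤ) ∣ -(A * x + B) := by simpa using h4
    exact (dvd_neg).1 h5

theorem Om_rt (G : ℤ[X]) (s A B : ℤ) {p : ℕ} (hp : p.Prime) (hA : ¬ (p : ℤ) ∣ A) :
    (Om G s A B p).card + 1 ≤ rt ((C A * X + C B) * G) p := by
  classical
  have hp0 : (0 : ℤ) < p := by exact_mod_cast hp.pos
  have hcop : IsCoprime (p : ℤ) A := (Int.prime_iff_natAbs_prime.2 (by simpa using hp)).coprime_iff_not_dvd.2 hA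
  obtain ⟨u, v, huv⟩ := hcop
  set r0 : ℤ := (-(B * v)) % p with hr0
  have h2 := Int.emod_nonneg (-(B * v)) hp0.ne'
  have h3 := Int.emod_lt_of_pos (-(B * v)) hp0
  have h4 : (r0.toNat : ℤ) = r0 := Int.toNat_of_nonneg h2
  have h5 : (p : ℤ) ∣ A * r0 + B := by
    obtain ⟨k, hk⟩ := Int.dvd_self_sub_emod (x := -(B * v)) (m := (p : ℤ))
    refine ⟨B * u - A * k, ?_⟩
    rw [← hr0] at hk
    linear_combination (-A) * hk - B * huv
  have h6 : (insert r0.toNat ((range p).filter (fun x : ℕ => (p : ℤ) ∣ G.eval (x : ℤ) ∧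
      ¬ (p : ℤ) ∣ A * x + B))).card = ((range p).filter (fun x : ℕ => (p : ℤ) ∣ G.eval (x : ℤ) ∧
      ¬ (p : ℤ) ∣ A * x + B)).card + 1 := by
    apply card_insert_of_notMem
    rw [mem_filter]
    rintro ⟨_, _, h⟩
    rw [h4] at h
    exact h h5
  calc (Om G s A B p).card + 1 ≤ ((range p).filter (fun x : ℕ => (p : ℤ) ∣ G.eval (x : ℤ) ∧
      ¬ (p : ℤ) ∣ A * x + B)).card + 1 := Nat.add_le_add_right card_image_le 1
    _ = _ := h6.symm
    _ ≤ _ := by
      unfold rt
      apply card_le_card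
      intro x hx
      rw [mem_insert] at hx
      rw [mem_filter, mem_range]
      simp only [eval_mul, eval_add, eval_C, eval_X]
      rcases hx with rfl | hx
      · refine ⟨by omega, ?_⟩
        rw [h4]
        exact Dvd.dvd.mul_right h5 _
      · rw [mem_filter, mem_range] at hx
        exact ⟨hx.1, Dvd.dvd.mul_left hx.2.1 _⟩

/-- the product of `1 - 1/p` over the primes up to `R` outside a fixed number -/
theorem mert_prod (m₀ : ℕ) (hm : 1 ≤ m₀) : ∃ C : ℝ, 0 < C ∧ ∀ R : ℕ, 3 ≤ R →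
    ∏ p ∈ PS m₀ R, (1 - 1 / (p : ℝ)) ≤ C / Real.log R := by
  classical
  obtain ⟨C, hC0, hC⟩ := mertens
  refine ⟨Real.exp (C + (m₀.primeFactors.card : ℝ)), Real.exp_pos _, fun R hR => ?_⟩
  have hlR : 0 < Real.log R := by
    apply Real.log_pos
    exact_mod_cast (by omega : 1 < R)
  have h1 : ∏ p ∈ PS m₀ R, (1 - 1 / (p : ℝ)) ≤ Real.exp (-∑ p ∈ PS m₀ R, 1 / (p : ℝ)) := by
    rw [← Finset.sum_neg_distrib, Real.exp_sum]
    apply Finset.prod_le_prod
    · intro p hp
      unfold PS at hp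
      rw [mem_filter, mem_Icc] at hp
      have h1 : (1 : ℝ) ≤ p := by exact_mod_cast hp.1.1
      have : 1 / (p : ℝ) ≤ 1 := by rw [div_le_one (by linarith)]; exact h1
      linarith
    · intro p _
      have := Real.add_one_le_exp (-(1 / (p : ℝ)))
      linarith
  refine h1.trans ?_
  have h2 : Real.log (Real.log R) - C - m₀.primeFactors.card ≤ ∑ p ∈ PS m₀ R, 1 / (p : ℝ) := by
    have h3 : ∑ p ∈ pr R, 1 / (p : ℝ) ≤ ∑ p ∈ PS m₀ R, 1 / (p : ℝ) + ∑ p ∈ m₀.primeFactors, 1 / (p : ℝ) := by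
      have h4 : pr R ⊆ PS m₀ R ∪ m₀.primeFactors := by
        intro p hp
        have h5 := mem_pr.1 hp
        rw [mem_union]
        by_cases h6 : p ∣ m₀
        · right
          rw [Nat.mem_primeFactors]
          exact ⟨h5.1, h6, by omega⟩
        · left
          unfold PS
          rw [mem_filter, mem_Icc]
          exact ⟨⟨h5.1.one_le, h5.2⟩, h5.1, h6⟩
      refine (sum_le_sum_of_subset_of_nonneg h4 (fun p _ _ => by positivity)).trans ?_
      have h7 := sum_union_inter (s₁ := PS m₀ R) (s₂ := m₀.primeFactors) (f := fun p : ℕ => 1 / (p : ℝ))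
      have h8 : 0 ≤ ∑ p ∈ PS m₀ R ∩ m₀.primeFactors, 1 / (p : ℝ) := sum_nonneg fun p _ => by positivity
      linarith
    have h4 : ∑ p ∈ m₀.primeFactors, 1 / (p : ℝ) ≤ m₀.primeFactors.card := by
      have : ∑ p ∈ m₀.primeFactors, 1 / (p : ℝ) ≤ ∑ p ∈ m₀.primeFactors, (1 : ℝ) := by
        apply sum_le_sum
        intro p hp
        have h1 : (1 : ℝ) ≤ p := by exact_mod_cast (Nat.prime_of_mem_primeFactors hp).one_le
        rw [div_le_one (by linarith)]
        exact h1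
      simpa using this
    have h5 := (abs_le.1 (hC R hR)).1
    linarith
  calc Real.exp (-∑ p ∈ PS m₀ R, 1 / (p : ℝ)) ≤
      Real.exp ((C + m₀.primeFactors.card) - Real.log (Real.log R)) := by
        apply Real.exp_le_exp.2
        linarith
    _ = _ := by rw [Real.exp_sub, Real.exp_log hlR]

end Pool.Agent.Q253.Line
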