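import Pool.Agent.Q253.Line.PrimeA

/-! One linear polynomial takes prime values: the lower bound. -/

set_option autoImplicit false

open Finset Polynomial

namespace Pool.Agent.Q253.Line

open Pool.Agent.TH423.SH

/-- the `0 < x < n` for which `|A x + B|` is a prime `> z` and no prime `p ≤ z` divides `G(x)` -/
noncomputable def good (G : ℤ[X]) (A B : ℤ) (z n : ℕ) : Finset ℕ :=
  (Ioo 0 n).filter (fun x : ℕ => (A * (x : ℤ) + B).natAbs.Prime ∧ z < (A * (x : ℤ) + B).natAbs ∧
    ∀ p ∈ pr z, ¬ (p : ℤ) ∣ G.eval (x : ℤ))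

/-- the map from the primes of an interval to the numbers `x` -/
theorem transfer {F G : ℤ[X]} {s A B : ℤ} (hs : s = 1 ∨ s = -1) (hA : A ≠ 0)
    (hFG : F = (C A * X + C B) * G) {M m₀ R z n u v x1 a0 : ℕ} (hm₀ : m₀ = A.natAbs * M)
    (hM : ∀ p : ℕ, p.Prime → p ∣ m₀ → p ∣ M ∧ ¬ (p : ℤ) ∣ F.eval (x1 : ℤ))
    (ha0 : (m₀ : ℤ) ∣ a0 - s * (A * x1 + B))
    (hzR : z ≤ R) (hzu : z ≤ u)
    (hlo : ∀ q : ℤ, (u : ℤ) < q → q ≤ v → 0 < s * A * (q - s * B) ∧ s * A * (q - s * B) < A ^ 2 * n) :
    ((Ioc u v).filter (fun q => q.Prime ∧ q % m₀ = a0 % m₀ ∧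
      ∀ p ∈ PS m₀ R, q % p ∉ Om G s A B p)).card ≤ (good G A B z n).card := by
  classical
  have hs2 : s * s = 1 := by rcases hs with rfl | rfl <;> norm_num
  -- the numbers x
  have hx : ∀ q : ℕ, q ∈ (Ioc u v).filter (fun q => q.Prime ∧ q % m₀ = a0 % m₀ ∧
      ∀ p ∈ PS m₀ R, q % p ∉ Om G s A B p) → ∃ x : ℕ, x ∈ good G A B z n ∧ (q : ℤ) = s * (A * x + B) := by
    intro q hq
    rw [mem_filter, mem_Ioc] at hq
    obtain ⟨⟨hu, hv⟩, hqp, hqm, hqO⟩ := hq
    have h1 : (m₀ : ℤ) ∣ q - a0 := by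
      have h1 : (q : ℤ) ≡ a0 [ZMOD m₀] := (Int.natCast_modEq_iff).2 hqm
      exact (Int.modEq_iff_dvd.1 h1.symm)
    have h2 : (m₀ : ℤ) ∣ q - s * (A * x1 + B) := by
      obtain ⟨j, hj⟩ := dvd_add h1 ha0
      exact ⟨j, by linarith⟩
    obtain ⟨k, hk⟩ := h2
    -- m₀ = ± A M
    obtain ⟨σ, hσ, hσ2⟩ : ∃ σ : ℤ, (A.natAbs : ℤ) = σ * A ∧ σ * σ = 1 := by
      rcases Int.natAbs_eq A with h | h
      · exact ⟨1, by omega, by norm_num⟩
      · exact ⟨-1, by omega, by norm_num⟩
    have hm : (m₀ : ℤ) = σ * A * M := by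
      rw [hm₀]
      push_cast
      rw [← hσ]
      simp
    set y : ℤ := x1 + s * σ * M * k with hy
    have hqy : (q : ℤ) = s * (A * y + B) := by
      have h3 : (q : ℤ) = s * (A * x1 + B) + m₀ * k := by linarith
      rw [h3, hm, hy]
      linear_combination (-(σ * A * M * k)) * hs2
    have h4 := hlo q (by exact_mod_cast hu) (by exact_mod_cast hv)
    have h5 : s * A * (q - s * B) = A ^ 2 * y := by
      rw [hqy]
      linear_combination (A ^ 2 * y) * hs2
    rw [h5] at h4
    have hA2 : 0 < A ^ 2 := by positivity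
    have hy0 : 0 < y := by
      by_contra h
      push Not at h
      nlinarith [h4.1]
    have hyn : y < n := lt_of_mul_lt_mul_left h4.2 hA2.le
    have hyy : (y.toNat : ℤ) = y := Int.toNat_of_nonneg hy0.le
    have habs : (A * y + B).natAbs = q := by
      have h6 : A * y + B = s * q := by
        rw [hqy]
        linear_combination (-(A * y + B)) * hs2
      rw [h6, Int.natAbs_mul]
      rcases hs with rfl | rfl <;> simp
    refine ⟨y.toNat, ?_, by rw [hyy]; exact hqy⟩
    unfold good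
    rw [mem_filter, mem_Ioo, hyy]
    refine ⟨⟨by omega, by omega⟩, by rw [habs]; exact hqp, by rw [habs]; omega, fun p hp => ?_⟩
    have hpp := (mem_pr.1 hp).1
    have hpz := (mem_pr.1 hp).2
    intro hG
    by_cases hpm : p ∣ m₀
    · obtain ⟨h7, h8⟩ := hM p hpp hpm
      apply h8
      rw [hFG, eval_mul]
      apply Dvd.dvd.mul_left
      rw [dvd_eval_congr G (b := y)]
      · exact hG
      · have h9 : (p : ℤ) ∣ M := by exact_mod_cast h7
        obtain ⟨j, hj⟩ := h9
        refine ⟨-(s * σ * j * k), ?_⟩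
        rw [hy, hj]
        ring
    · have hPS : p ∈ PS m₀ R := by
        unfold PS
        rw [mem_filter, mem_Icc]
        exact ⟨⟨hpp.one_le, hpz.trans hzR⟩, hpp, hpm⟩
      apply hqO p hPS
      unfold Om
      rw [mem_image]
      have hp0 : (0 : ℤ) < p := by exact_mod_cast hpp.pos
      have hyp : (((y % p).toNat : ℕ) : ℤ) = y % p := Int.toNat_of_nonneg (Int.emod_nonneg _ hp0.ne')
      have hpq : ¬ (p : ℤ) ∣ A * y + B := by
        intro h9
        have h10 : (p : ℤ) ∣ (q : ℤ) := by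
          rw [hqy]
          exact Dvd.dvd.mul_left h9 s
        have h11 : p ∣ q := by exact_mod_cast h10
        have h12 := (Nat.prime_dvd_prime_iff_eq hpp hqp).1 h11
        omega
      have hcon : (p : ℤ) ∣ (A * (y % p) + B) - (A * y + B) := by
        obtain ⟨j, hj⟩ := Int.dvd_self_sub_emod (x := y) (m := (p : ℤ))
        refine ⟨-(A * j), ?_⟩
        linear_combination (-A) * hj
      refine ⟨(y % p).toNat, ?_, ?_⟩
      · rw [mem_filter, mem_range, hyp]
        refine ⟨?_, ?_, ?_⟩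
        · have := Int.emod_lt_of_pos y hp0
          omega
        · rw [← dvd_eval_emod]
          exact hG
        · intro h9
          apply hpq
          exact (dvd_iff_dvd_of_dvd_sub hcon).1 h9
      · rw [hyp]
        have h13 : (s * (A * (y % p) + B)) % p = (q : ℤ) % p := by
          apply Int.ModEq.eq
          apply Int.ModEq.symm
          rw [Int.modEq_iff_dvd, hqy]
          obtain ⟨j, hj⟩ := Dvd.dvd.mul_left hcon s
          exact ⟨j, by linear_combination hj⟩
        rw [h13]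
        have h14 : (q : ℤ) % p = ((q % p : ℕ) : ℤ) := by push_cast; rfl
        rw [h14, Int.toNat_natCast]
  choose! f hf1 hf2 using hx
  apply card_le_card_of_injOn f
  · intro q hq
    exact hf1 q hq
  · intro q hq q' hq' h
    have h1 := hf2 q hq
    have h2 := hf2 q' hq'
    rw [h] at h1
    have h3 : (q : ℤ) = q' := by rw [h1, h2]
    exact_mod_cast h3

end Pool.Agent.Q253.Line
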