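import Pool.Agent.Q253.Line.PrimeB

/-! One linear polynomial takes prime values: the lower bound. -/

set_option autoImplicit false

open Finset Polynomial

namespace Pool.Agent.Q253.Line

open Pool.Agent.TH423.SH

/-- the interval of primes -/
theorem choose_uv (a b c : ℤ) (hab : a ≠ b) : ∃ s : ℤ, (s = 1 ∨ s = -1) ∧ ∃ h : ℕ, 1 ≤ h ∧
    ∃ N : ℕ, ∀ n : ℕ, N ≤ n → ∃ u v : ℕ, n ≤ 2 * u ∧ u ≤ v ∧ v ≤ h * n ∧ n ≤ 5 * (v - u) ∧ v ≤ 2 * u ∧
      ∀ q : ℤ, (u : ℤ) < q → q ≤ v →
        0 < s * (a - b) * (q - s * (b * n + c)) ∧ s * (a - b) * (q - s * (b * n + c)) < (a - b) ^ 2 * n := by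
  obtain ⟨s, hs, hmax⟩ : ∃ s : ℤ, (s = 1 ∨ s = -1) ∧ 0 < max (s * a) (s * b) := by
    by_cases h : 0 < max a b
    · exact ⟨1, Or.inl rfl, by simpa using h⟩
    · refine ⟨-1, Or.inr rfl, ?_⟩
      push Not at h
      rw [max_le_iff] at h
      rw [lt_max_iff]
      rcases lt_or_gt_of_ne hab with h1 | h1
      · left; linarith
      · right; linarith
  have hs2 : s * s = 1 := by rcases hs with rfl | rfl <;> norm_num
  have hne : s * a ≠ s * b := by
    intro h
    apply hab
    have : s * (s * a) = s * (s * b) := by rw [h]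
    rwa [← mul_assoc, ← mul_assoc, hs2, one_mul, one_mul] at this
  set α := s * b with hα
  set β := s * a with hβ
  set γ := s * c with hγ
  refine ⟨s, hs, (max β α).toNat, by omega, (4 * γ.natAbs + 40), fun n hn => ?_⟩
  have hnz : (4 * |γ| + 40 : ℤ) ≤ n := by
    have h1 : ((4 * γ.natAbs + 40 : ℕ) : ℤ) ≤ n := by exact_mod_cast hn
    push_cast at h1
    exact h1
  have hγ1 := neg_abs_le γ
  have hγ2 := le_abs_self γ
  have hγ3 := abs_nonneg γ
  set hi := max β α with hhi
  set mn := min β α with hmn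
  have hlt : mn + 1 ≤ hi := by
    rw [hhi, hmn]
    rcases lt_or_gt_of_ne hne with h | h
    · rw [max_eq_right h.le, min_eq_left h.le]; omega
    · rw [max_eq_left h.le, min_eq_right h.le]; omega
  have hn0 : (0 : ℤ) < n := by linarith
  have hv1 : (n : ℤ) ≤ hi * n := by nlinarith
  have hv2 : mn * n + n ≤ hi * n := by nlinarith
  set v : ℤ := hi * n - |γ| - 1 with hv
  set u : ℤ := v - (n : ℤ) / 4 with hu
  have hd1 : (n : ℤ) / 4 * 4 ≤ n := Int.ediv_mul_le _ (by norm_num)
  have hd2 : (n : ℤ) < (n : ℤ) / 4 * 4 + 4 := by omega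
  have hu0 : (n : ℤ) ≤ 2 * u := by linarith
  have hvu : u ≤ v := by
    rw [hu]
    have : 0 ≤ (n : ℤ) / 4 := by omega
    linarith
  have hu' : (u.toNat : ℤ) = u := Int.toNat_of_nonneg (by linarith)
  have hv' : (v.toNat : ℤ) = v := Int.toNat_of_nonneg (by linarith)
  have hhi' : (hi.toNat : ℤ) = hi := Int.toNat_of_nonneg (by linarith)
  refine ⟨u.toNat, v.toNat, by omega, by omega, ?_, by omega, by omega, ?_⟩
  · zify
    rw [hv', hhi']
    linarith
  · rw [hu', hv']
    intro q hq1 hq2
    have hq3 : q < hi * n + γ := by linarith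
    have hq4 : mn * n + γ < q := by linarith
    have e1 : s * (b * n + c) = α * n + γ := by rw [hα, hγ]; ring
    have e2 : s * (a - b) = β - α := by rw [hα, hβ]; ring
    have e3 : (a - b) ^ 2 = (β - α) ^ 2 := by
      have : (β - α) ^ 2 = (s * s) * (a - b) ^ 2 := by rw [hα, hβ]; ring
      rw [this, hs2, one_mul]
    rw [e1, e2, e3]
    rcases lt_or_gt_of_ne hne with h | h
    · -- β < α
      have f1 : hi = α := max_eq_right h.le
      have f2 : mn = β := min_eq_left h.le
      rw [f1] at hq3
      rw [f2] at hq4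
      have g1 : β - α < 0 := by linarith
      constructor
      · exact mul_pos_of_neg_of_neg g1 (by linarith)
      · have g2 := mul_pos_of_neg_of_neg g1 (show β * n + γ - q < 0 by linarith)
        have g3 : (β - α) ^ 2 * n - (β - α) * (q - (α * n + γ)) = (β - α) * (β * n + γ - q) := by ring
        linarith
    · have f1 : hi = β := max_eq_left h.le
      have f2 : mn = α := min_eq_right h.le
      rw [f1] at hq3
      rw [f2] at hq4
      have g1 : 0 < β - α := by linarith
      constructor
      · exact mul_pos g1 (by linarith)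
      · have g2 := mul_pos g1 (show 0 < β * n + γ - q by linarith)
        have g3 : (β - α) ^ 2 * n - (β - α) * (q - (α * n + γ)) = (β - α) * (β * n + γ - q) := by ring
        linarith

end Pool.Agent.Q253.Line
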