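import Pool.Agent.Q253.Line.Roots
import Pool.Agent.Erdos456.Mertens

/-! Products over primes: bounds from Mertens' theorem. -/

set_option autoImplicit false

open Finset Polynomial

namespace Pool.Agent.Q253.Line

/-- the product over the primes up to `n` -/
noncomputable def W (F : ℤ[X]) (n : ℕ) : ℝ := ∏ p ∈ pr n, (1 - (rt F p : ℝ) / p)

theorem mertens : ∃ C : ℝ, 0 ≤ C ∧ ∀ N : ℕ, 3 ≤ N →
    |∑ p ∈ pr N, (1 : ℝ) / p - Real.log (Real.log N)| ≤ C := by
  obtain ⟨C, hC⟩ := Pool.Agent.Erdos456.Mert.mertens_inv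
  exact ⟨C, (abs_nonneg _).trans (hC 3 le_rfl), hC⟩

theorem W_pos {F : ℤ[X]} (hF : NFD F) (n : ℕ) : 0 < W F n := by
  unfold W
  apply prod_pos
  intro p hp
  have h1 := (mem_pr.1 hp).1
  have h2 := (fac_mem hF h1).1
  have h3 : (0 : ℝ) < 1 / p := by
    have : (0 : ℝ) < p := by exact_mod_cast h1.pos
    positivity
  linarith

/-- the product over a set of primes is at least the product over the primes up to `n` -/
theorem W_le_prod {F : ℤ[X]} (hF : NFD F) {n : ℕ} {P : Finset ℕ} (hP : P ⊆ pr n) :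
    W F n ≤ ∏ p ∈ P, (1 - (rt F p : ℝ) / p) := by
  classical
  unfold W
  rw [← prod_sdiff hP]
  have h1 : ∏ p ∈ pr n \ P, (1 - (rt F p : ℝ) / p) ≤ 1 := by
    apply prod_le_one
    · intro p hp
      have h1 := (mem_pr.1 (mem_sdiff.1 hp).1).1
      have h2 := (fac_mem hF h1).1
      have h3 : (0 : ℝ) < 1 / p := by
        have : (0 : ℝ) < p := by exact_mod_cast h1.pos
        positivity
      linarith
    · intro p hp
      exact (fac_mem hF (mem_pr.1 (mem_sdiff.1 hp).1).1).2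
  have h2 : 0 ≤ ∏ p ∈ P, (1 - (rt F p : ℝ) / p) := by
    apply prod_nonneg
    intro p hp
    have h1 := (mem_pr.1 (hP hp)).1
    have h2 := (fac_mem hF h1).1
    have h3 : (0 : ℝ) < 1 / p := by
      have : (0 : ℝ) < p := by exact_mod_cast h1.pos
      positivity
    linarith
  nlinarith

/-- the small primes -/
theorem small_prod {F : ℤ[X]} (hF : NFD F) (w : ℕ) :
    ∏ p ∈ pr w, (1 / (p : ℝ)) ≤ ∏ p ∈ pr w, (1 - (rt F p : ℝ) / p) := by
  apply Finset.prod_le_prod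
  · intro p _
    positivity
  · intro p hp
    exact (fac_mem hF (mem_pr.1 hp).1).1

theorem W_lower (κ : ℕ) : ∃ c : ℝ, 0 < c ∧ ∀ n : ℕ, 3 ≤ n → ∀ F : ℤ[X], NFD F → F.natDegree ≤ κ →
    c / Real.log n ^ κ ≤ W F n := by
  classical
  obtain ⟨C, hC0, hC⟩ := mertens
  have hs : (0 : ℝ) < ∏ p ∈ pr (2 * κ), (1 / (p : ℝ)) := by
    apply prod_pos
    intro p hp
    have : (0 : ℝ) < p := by exact_mod_cast (mem_pr.1 hp).1.pos
    positivity
  refine ⟨(∏ p ∈ pr (2 * κ), (1 / (p : ℝ))) * Real.exp (-(κ * C) - 2 * κ ^ 2), by positivity, ?_⟩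
  intro n hn F hF hd
  have hlog : 0 < Real.log n := by
    apply Real.log_pos
    exact_mod_cast (by omega : 1 < n)
  set S := pr n \ pr (2 * κ) with hS
  have h1 : (∏ p ∈ pr n, (1 - (rt F p : ℝ) / p)) =
      (∏ p ∈ S, (1 - (rt F p : ℝ) / p)) * ∏ p ∈ pr n ∩ pr (2 * κ), (1 - (rt F p : ℝ) / p) := by
    rw [hS, ← prod_sdiff (s₁ := pr n ∩ pr (2 * κ)) (inter_subset_left)]
    congr 1
    apply prod_congr _ (fun _ _ => rfl)
    ext p
    simp only [mem_sdiff, mem_inter]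
    tauto
  have h2 : ∏ p ∈ pr (2 * κ), (1 / (p : ℝ)) ≤ ∏ p ∈ pr n ∩ pr (2 * κ), (1 - (rt F p : ℝ) / p) := by
    calc ∏ p ∈ pr (2 * κ), (1 / (p : ℝ)) ≤ ∏ p ∈ pr n ∩ pr (2 * κ), (1 / (p : ℝ)) := by
          rw [← prod_sdiff (s₁ := pr n ∩ pr (2 * κ)) (s₂ := pr (2 * κ)) inter_subset_right]
          have h3 : ∏ p ∈ pr (2 * κ) \ (pr n ∩ pr (2 * κ)), (1 / (p : ℝ)) ≤ 1 := by
            apply prod_le_one
            · intro p _
              positivity
            · intro p hp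
              have h4 : (1 : ℝ) ≤ p := by exact_mod_cast (mem_pr.1 (mem_sdiff.1 hp).1).1.one_le
              rw [div_le_one (by linarith)]
              exact h4
          have h4 : 0 ≤ ∏ p ∈ pr n ∩ pr (2 * κ), (1 / (p : ℝ)) := by
            apply prod_nonneg
            intro p _
            positivity
          nlinarith
      _ ≤ _ := by
          apply Finset.prod_le_prod
          · intro p _
            positivity
          · intro p hp
            exact (fac_mem hF (mem_pr.1 (mem_inter.1 hp).1).1).1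
  have h3 := prod_lower κ S (by
    intro p hp
    rw [hS, mem_sdiff, mem_pr, mem_pr] at hp
    refine ⟨hp.1.1, ?_⟩
    by_contra h
    exact hp.2 ⟨hp.1.1, by omega⟩) (rt F) (by
    intro p hp
    rw [hS, mem_sdiff, mem_pr] at hp
    exact (rt_le hp.1.1 (hF p hp.1.1)).trans hd)
  have h4 : ∑ p ∈ S, 1 / (p : ℝ) ≤ Real.log (Real.log n) + C := by
    have h5 : ∑ p ∈ S, 1 / (p : ℝ) ≤ ∑ p ∈ pr n, 1 / (p : ℝ) := by
      apply sum_le_sum_of_subset_of_nonneg sdiff_subset
      intro p _ _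
      positivity
    have h6 := (abs_le.1 (hC n hn)).2
    linarith
  have h5 : Real.exp (-(κ * C) - 2 * κ ^ 2) / Real.log n ^ κ ≤ ∏ p ∈ S, (1 - (rt F p : ℝ) / p) := by
    refine le_trans ?_ h3
    have h6 : Real.log n ^ κ = Real.exp (κ * Real.log (Real.log n)) := by
      rw [Real.exp_nat_mul, Real.exp_log hlog]
    rw [h6, ← Real.exp_sub]
    apply Real.exp_le_exp.2
    have h7 : (0 : ℝ) ≤ κ := Nat.cast_nonneg _
    nlinarith
  unfold W
  rw [h1]
  calc (∏ p ∈ pr (2 * κ), (1 / (p : ℝ))) * Real.exp (-(κ * C) - 2 * κ ^ 2) / Real.log n ^ κ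
      = (Real.exp (-(κ * C) - 2 * κ ^ 2) / Real.log n ^ κ) * ∏ p ∈ pr (2 * κ), (1 / (p : ℝ)) := by ring
    _ ≤ _ := by
        apply mul_le_mul h5 h2 hs.le
        refine le_trans ?_ h5
        positivity

/-- the middle primes -/
theorem mid_prod (κ : ℕ) (δ : ℝ) (hδ : 0 < δ) : ∃ c : ℝ, 0 < c ∧ ∀ z n : ℕ, 3 ≤ z → 2 * κ ≤ z → z ≤ n →
    δ * Real.log n ≤ Real.log z → ∀ F : ℤ[X], NFD F → F.natDegree ≤ κ →
    c ≤ ∏ p ∈ pr n \ pr z, (1 - (rt F p : ℝ) / p) := by
  classical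
  obtain ⟨C, hC0, hC⟩ := mertens
  refine ⟨Real.exp (-(κ * (Real.log (1 / δ) + 2 * C)) - 2 * κ ^ 2), Real.exp_pos _, ?_⟩
  intro z n hz hκ hzn hlog F hF hd
  have h3 := prod_lower κ (pr n \ pr z) (by
    intro p hp
    rw [mem_sdiff, mem_pr, mem_pr] at hp
    refine ⟨hp.1.1, ?_⟩
    by_contra h
    exact hp.2 ⟨hp.1.1, by omega⟩) (rt F) (by
    intro p hp
    rw [mem_sdiff, mem_pr] at hp
    exact (rt_le hp.1.1 (hF p hp.1.1)).trans hd)
  refine le_trans ?_ h3
  apply Real.exp_le_exp.2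
  have hlz : 0 < Real.log z := by
    apply Real.log_pos
    exact_mod_cast (by omega : 1 < z)
  have hln : 0 < Real.log n := by
    apply Real.log_pos
    exact_mod_cast (by omega : 1 < n)
  have h4 : ∑ p ∈ pr n \ pr z, 1 / (p : ℝ) ≤ Real.log (1 / δ) + 2 * C := by
    have h5 : pr z ⊆ pr n := by
      intro p hp
      rw [mem_pr] at hp ⊢
      exact ⟨hp.1, hp.2.trans hzn⟩
    have h6 := sum_sdiff (f := fun p : ℕ => 1 / (p : ℝ)) h5
    have h7 := (abs_le.1 (hC n (by omega))).2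
    have h8 := (abs_le.1 (hC z hz)).1
    have h9 : Real.log (Real.log n) ≤ Real.log (1 / δ) + Real.log (Real.log z) := by
      rw [← Real.log_mul (by positivity) hlz.ne']
      apply Real.log_le_log hln
      rw [div_mul_eq_mul_div, one_mul, le_div_iff₀ hδ]
      linarith
    linarith
  have h7 : (0 : ℝ) ≤ κ := Nat.cast_nonneg _
  nlinarith

end Pool.Agent.Q253.Line
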