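import Mathlib

/-! Roots of integer polynomials modulo primes, and products over primes. -/

set_option autoImplicit false

open Finset Polynomial

namespace Pool.Agent.Q253.Line

/-- no fixed prime divisor -/
def NFD (F : ℤ[X]) : Prop := ∀ p : ℕ, p.Prime → ∃ x : ℤ, ¬ (p : ℤ) ∣ F.eval x

/-- the number of roots modulo `p` -/
def rt (F : ℤ[X]) (p : ℕ) : ℕ := ((range p).filter (fun x : ℕ => (p : ℤ) ∣ F.eval (x : ℤ))).card

theorem dvd_eval_congr (F : ℤ[X]) {p : ℕ} {a b : ℤ} (h : (p : ℤ) ∣ a - b) :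
    (p : ℤ) ∣ F.eval a ↔ (p : ℤ) ∣ F.eval b := by
  have h1 : (p : ℤ) ∣ F.eval a - F.eval b := h.trans (Polynomial.sub_dvd_eval_sub a b F)
  exact (dvd_iff_dvd_of_dvd_sub h1)

theorem dvd_eval_emod (F : ℤ[X]) (p : ℕ) (a : ℤ) :
    (p : ℤ) ∣ F.eval a ↔ (p : ℤ) ∣ F.eval (a % p) :=
  dvd_eval_congr F (Int.dvd_self_sub_emod)

theorem eval_map_cast (F : ℤ[X]) (p : ℕ) (x : ℤ) :
    (F.map (Int.castRingHom (ZMod p))).eval (x : ZMod p) = ((F.eval x : ℤ) : ZMod p) := by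
  rw [Polynomial.eval_intCast_map]
  simp

theorem map_ne_zero' {F : ℤ[X]} {p : ℕ} (h : ∃ x : ℤ, ¬ (p : ℤ) ∣ F.eval x) :
    F.map (Int.castRingHom (ZMod p)) ≠ 0 := by
  intro h0
  obtain ⟨x, hx⟩ := h
  apply hx
  rw [← ZMod.intCast_zmod_eq_zero_iff_dvd, ← eval_map_cast, h0, Polynomial.eval_zero]

theorem rt_le {F : ℤ[X]} {p : ℕ} (hp : p.Prime) (h : ∃ x : ℤ, ¬ (p : ℤ) ∣ F.eval x) :
    rt F p ≤ F.natDegree := by
  classical
  have := Fact.mk hp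
  have h0 := map_ne_zero' h
  unfold rt
  have h1 : ((range p).filter (fun x : ℕ => (p : ℤ) ∣ F.eval (x : ℤ))).card ≤
      ((F.map (Int.castRingHom (ZMod p))).roots.toFinset).card := by
    apply card_le_card_of_injOn (fun x : ℕ => (x : ZMod p))
    · intro x hx
      rw [mem_coe, mem_filter, mem_range] at hx
      rw [mem_coe, Multiset.mem_toFinset, mem_roots h0, IsRoot.def]
      have h2 : (x : ZMod p) = ((x : ℤ) : ZMod p) := by simp
      simp only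
      rw [h2, eval_map_cast, ZMod.intCast_zmod_eq_zero_iff_dvd]
      exact hx.2
    · intro x hx y hy hxy
      rw [mem_coe, mem_filter, mem_range] at hx hy
      have h3 := (ZMod.natCast_eq_natCast_iff' x y p).1 hxy
      rwa [Nat.mod_eq_of_lt hx.1, Nat.mod_eq_of_lt hy.1] at h3
  refine h1.trans ((Multiset.toFinset_card_le _).trans ?_)
  exact (card_roots' _).trans natDegree_map_le

theorem rt_lt {F : ℤ[X]} {p : ℕ} (hp : p.Prime) (h : ∃ x : ℤ, ¬ (p : ℤ) ∣ F.eval x) :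
    rt F p < p := by
  obtain ⟨x, hx⟩ := h
  have hp0 : (0 : ℤ) < p := by exact_mod_cast hp.pos
  have h1 : ((x % p).toNat : ℤ) = x % p := Int.toNat_of_nonneg (Int.emod_nonneg _ hp0.ne')
  have h2 : (x % p).toNat ∈ range p := by
    rw [mem_range]
    zify
    rw [h1]
    exact Int.emod_lt_of_pos _ hp0
  have h3 : (range p).filter (fun x : ℕ => (p : ℤ) ∣ F.eval (x : ℤ)) ⊂ range p := by
    rw [ssubset_iff_of_subset (filter_subset _ _)]
    refine ⟨_, h2, ?_⟩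
    rw [mem_filter]
    rintro ⟨_, h4⟩
    rw [h1, ← dvd_eval_emod] at h4
    exact hx h4
  have h4 := card_lt_card h3
  rwa [card_range] at h4

/-- the primes up to `n` -/
def pr (n : ℕ) : Finset ℕ := (Icc 1 n).filter Nat.Prime

theorem mem_pr {n p : ℕ} : p ∈ pr n ↔ p.Prime ∧ p ≤ n := by
  unfold pr
  rw [mem_filter, mem_Icc]
  constructor
  · rintro ⟨⟨_, h⟩, h'⟩
    exact ⟨h', h⟩
  · rintro ⟨h, h'⟩
    exact ⟨⟨h.one_le, h'⟩, h⟩

theorem exp_le_one_sub {t : ℝ} (h0 : 0 ≤ t) (h1 : t ≤ 1 / 2) : Real.exp (-t - 2 * t ^ 2) ≤ 1 - t := by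
  have h2 : 0 < 1 - t := by linarith
  rw [← Real.le_log_iff_exp_le h2]
  have h3 := Real.one_sub_inv_le_log_of_pos h2
  refine le_trans ?_ h3
  have h4 : (1 - t)⁻¹ ≤ 1 + t + 2 * t ^ 2 := by
    rw [inv_le_iff_one_le_mul₀ h2]
    nlinarith [mul_nonneg h0 h0, mul_nonneg (mul_nonneg h0 h0) (by linarith : (0:ℝ) ≤ 1 - 2 * t)]
  linarith

theorem sum_inv_sq (P : Finset ℕ) (hP : ∀ p ∈ P, 2 ≤ p) : ∑ p ∈ P, 1 / (p : ℝ) ^ 2 ≤ 1 := by
  classical
  -- telescoping 1/p^2 ≤ 1/(p-1) - 1/p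
  obtain ⟨N, hN⟩ : ∃ N, ∀ p ∈ P, p ≤ N := ⟨P.sup id, fun p hp => Finset.le_sup (f := id) hp⟩
  have h1 : ∑ p ∈ P, 1 / (p : ℝ) ^ 2 ≤ ∑ p ∈ Icc 2 N, 1 / (p : ℝ) ^ 2 := by
    apply sum_le_sum_of_subset_of_nonneg
    · intro p hp
      rw [mem_Icc]
      exact ⟨hP p hp, hN p hp⟩
    · intro p _ _
      positivity
  refine h1.trans ?_
  have h2 : ∀ N : ℕ, 1 ≤ N → ∑ p ∈ Icc 2 N, 1 / (p : ℝ) ^ 2 ≤ 1 - 1 / (N : ℝ) := by
    intro N hN
    induction N, hN using Nat.le_induction with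
    | base => simp
    | succ n hn ih =>
      rw [Finset.sum_Icc_succ_top (by omega)]
      have hn0 : (0 : ℝ) < n := by exact_mod_cast hn
      push_cast
      have h3 : 1 / ((n : ℝ) + 1) ^ 2 ≤ 1 / (n : ℝ) - 1 / ((n : ℝ) + 1) := by
        rw [div_sub_div _ _ hn0.ne' (by positivity), div_le_div_iff₀ (by positivity) (by positivity)]
        nlinarith
      linarith
  rcases Nat.eq_zero_or_pos N with h0 | h0
  · subst h0
    simp
  · have h3 := h2 N h0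
    have h4 : (0 : ℝ) ≤ 1 / N := by positivity
    linarith

/-- lower bound of the product over large primes -/
theorem prod_lower (κ : ℕ) (P : Finset ℕ) (hP : ∀ p ∈ P, p.Prime ∧ 2 * κ ≤ p) (ρ : ℕ → ℕ)
    (hρ : ∀ p ∈ P, ρ p ≤ κ) :
    Real.exp (-(κ * ∑ p ∈ P, 1 / (p : ℝ)) - 2 * κ ^ 2) ≤ ∏ p ∈ P, (1 - (ρ p : ℝ) / p) := by
  have h1 : ∀ p ∈ P, Real.exp (-((κ : ℝ) / p) - 2 * ((κ : ℝ) / p) ^ 2) ≤ 1 - (ρ p : ℝ) / p := by
    intro p hp
    have hp0 : (0 : ℝ) < p := by exact_mod_cast (hP p hp).1.pos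
    have h2 : (κ : ℝ) / p ≤ 1 / 2 := by
      rw [div_le_div_iff₀ hp0 (by norm_num)]
      have := (hP p hp).2
      have h3 : (2 * κ : ℝ) ≤ p := by exact_mod_cast this
      linarith
    refine (exp_le_one_sub (by positivity) h2).trans ?_
    have h3 : (ρ p : ℝ) / p ≤ κ / p := by
      apply div_le_div_of_nonneg_right _ hp0.le
      exact_mod_cast hρ p hp
    linarith
  refine le_trans ?_ (Finset.prod_le_prod (fun p _ => (Real.exp_pos _).le) h1)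
  rw [← Real.exp_sum]
  apply Real.exp_le_exp.2
  rw [Finset.sum_sub_distrib, Finset.sum_neg_distrib, ← Finset.mul_sum]
  have h4 : ∑ p ∈ P, ((κ : ℝ) / p) ^ 2 ≤ κ ^ 2 := by
    have h5 : ∑ p ∈ P, ((κ : ℝ) / p) ^ 2 = κ ^ 2 * ∑ p ∈ P, 1 / (p : ℝ) ^ 2 := by
      rw [Finset.mul_sum]
      apply sum_congr rfl
      intro p _
      rw [div_pow]
      ring
    rw [h5]
    have h6 := sum_inv_sq P (fun p hp => (hP p hp).1.two_le)
    have h7 : (0 : ℝ) ≤ (κ : ℝ) ^ 2 := by positivity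
    nlinarith
  have h8 : ∑ p ∈ P, (κ : ℝ) * (1 / (p : ℝ)) = ∑ p ∈ P, (κ : ℝ) / p := by
    apply sum_congr rfl
    intro p _
    ring
  rw [← h8, ← Finset.mul_sum]
  linarith

/-- factors of the product -/
theorem fac_mem {F : ℤ[X]} (hF : NFD F) {p : ℕ} (hp : p.Prime) :
    (1 : ℝ) / p ≤ 1 - (rt F p : ℝ) / p ∧ 1 - (rt F p : ℝ) / p ≤ 1 := by
  have hp0 : (0 : ℝ) < p := by exact_mod_cast hp.pos
  have h1 := rt_lt hp (hF p hp)
  have h2 : (rt F p : ℝ) + 1 ≤ p := by exact_mod_cast h1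
  constructor
  · rw [div_le_iff₀ hp0, sub_mul, one_mul, div_mul_cancel₀ _ hp0.ne']
    linarith
  · have : (0 : ℝ) ≤ (rt F p : ℝ) / p := by positivity
    linarith

end Pool.Agent.Q253.Line
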