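import Pool.Agent.Q253.Line.Prods
import Pool.Agent.TH847.TP.Sieve

/-! The sieve for the values of a polynomial on `1, ..., n - 1`, uniform in the polynomial. -/

set_option autoImplicit false

open Finset Polynomial

namespace Pool.Agent.Q253.Line

open Pool.Agent.TH847.TP

/-- the `0 < x < n` such that no prime `p ≤ z` divides `F(x)` -/
noncomputable def rough (F : ℤ[X]) (z n : ℕ) : Finset ℕ :=
  (Ioo 0 n).filter (fun x : ℕ => ∀ p ∈ pr z, ¬ (p : ℤ) ∣ F.eval (x : ℤ))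

theorem exists_J (z : ℕ) (hz : 2 ≤ z) : ∃ J : ℕ, z ≤ 2 ^ 2 ^ J ∧ 2 ^ 2 ^ J ≤ z ^ 2 := by
  classical
  have hex : ∃ J : ℕ, z ≤ 2 ^ 2 ^ J := by
    refine ⟨z, ?_⟩
    have h1 : z < 2 ^ z := Nat.lt_two_pow_self
    have h2 : 2 ^ z < 2 ^ 2 ^ z := Nat.pow_lt_pow_right (by norm_num) h1
    omega
  refine ⟨Nat.find hex, Nat.find_spec hex, ?_⟩
  rcases Nat.eq_zero_or_pos (Nat.find hex) with h | h
  · rw [h]
    simp only [pow_zero, pow_one]
    nlinarith
  · have h1 := Nat.find_min hex (m := Nat.find hex - 1) (by omega)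
    have h2 : 2 ^ 2 ^ (Nat.find hex) = (2 ^ 2 ^ (Nat.find hex - 1)) ^ 2 := by
      rw [← pow_mul, ← pow_succ, Nat.sub_add_cancel h]
    rw [h2]
    apply Nat.pow_le_pow_left
    omega

/-- simultaneous nonzero values modulo finitely many primes -/
theorem exists_int {F : ℤ[X]} (hF : NFD F) (S : Finset ℕ) (hS : ∀ p ∈ S, p.Prime) :
    ∃ x : ℤ, ∀ p ∈ S, ¬ (p : ℤ) ∣ F.eval x := by
  classical
  induction S using Finset.induction_on with
  | empty => exact ⟨0, fun p hp => absurd hp (Finset.notMem_empty p)⟩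
  | insert p S hp ih =>
    obtain ⟨y, hy⟩ := ih (fun q hq => hS q (mem_insert_of_mem hq))
    have hpp := hS p (mem_insert_self p S)
    obtain ⟨a, ha⟩ := hF p hpp
    have hcop : IsCoprime ((∏ q ∈ S, q : ℕ) : ℤ) (p : ℤ) := by
      rw [Nat.isCoprime_iff_coprime]
      apply Nat.Coprime.prod_left
      intro q hq
      refine (Nat.coprime_primes (hS q (mem_insert_of_mem hq)) hpp).2 ?_
      rintro rfl
      exact hp hq
    obtain ⟨u, v, huv⟩ := hcop
    refine ⟨a * u * ((∏ q ∈ S, q : ℕ) : ℤ) + y * v * p, fun q hq => ?_⟩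
    rcases mem_insert.1 hq with h | h
    · subst h
      rw [dvd_eval_congr F (b := a)]
      · exact ha
      · refine ⟨v * (y - a), ?_⟩
        linear_combination a * huv
    · rw [dvd_eval_congr F (b := y)]
      · exact hy q h
      · have h1 : (q : ℤ) ∣ ((∏ q ∈ S, q : ℕ) : ℤ) := by
          exact_mod_cast dvd_prod_of_mem (fun q => q) h
        refine dvd_trans h1 ⟨u * (a - y), ?_⟩
        linear_combination y * huv

theorem exists_nat {F : ℤ[X]} (hF : NFD F) (w : ℕ) :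
    ∃ x : ℕ, 1 ≤ x ∧ x ≤ ∏ p ∈ pr w, p ∧ ∀ p ∈ pr w, ¬ (p : ℤ) ∣ F.eval (x : ℤ) := by
  obtain ⟨y, hy⟩ := exists_int hF (pr w) (fun p hp => (mem_pr.1 hp).1)
  set M := ∏ p ∈ pr w, p with hM
  have hM0 : 0 < M := prod_pos fun p hp => (mem_pr.1 hp).1.pos
  have hM1 : (0 : ℤ) < M := by exact_mod_cast hM0
  have h1 : (((y - 1) % M).toNat : ℤ) = (y - 1) % M := Int.toNat_of_nonneg (Int.emod_nonneg _ hM1.ne')
  refine ⟨((y - 1) % M).toNat + 1, by omega, ?_, fun p hp => ?_⟩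
  · have := Int.emod_lt_of_pos (y - 1) hM1
    omega
  · rw [dvd_eval_congr F (b := y)]
    · exact hy p hp
    · push_cast
      rw [h1]
      have h2 : (p : ℤ) ∣ M := by exact_mod_cast dvd_prod_of_mem (fun q => q) hp
      have h3 : (M : ℤ) ∣ (y - 1) % M - (y - 1) := by
        obtain ⟨k, hk⟩ := Int.dvd_self_sub_emod (x := y - 1) (m := (M : ℤ))
        exact ⟨-k, by linarith⟩
      obtain ⟨k, hk⟩ := h2.trans h3
      exact ⟨k, by linarith⟩

/-- the number of hits in a residue class -/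
theorem hit_le (F : ℤ[X]) {p M : ℕ} (hp : p.Prime) (hM : ¬ p ∣ M) (x : ℕ) :
    ((range p).filter (fun v : ℕ => (p : ℤ) ∣ F.eval ((x : ℤ) + M * v))).card ≤ rt F p := by
  unfold rt
  apply card_le_card_of_injOn (fun v => (x + M * v) % p)
  · intro v hv
    rw [mem_coe, mem_filter, mem_range] at hv
    rw [mem_coe, mem_filter, mem_range]
    refine ⟨Nat.mod_lt _ hp.pos, ?_⟩
    push_cast
    rw [← dvd_eval_emod]
    exact hv.2
  · intro v hv v' hv' h
    rw [mem_coe, mem_filter, mem_range] at hv hv'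
    have h1 : x + M * v ≡ x + M * v' [MOD p] := h
    have h2 := Nat.ModEq.add_left_cancel' x h1
    have h3 := Nat.ModEq.cancel_left_of_coprime ((Nat.Prime.coprime_iff_not_dvd hp).2 hM) h2
    unfold Nat.ModEq at h3
    rwa [Nat.mod_eq_of_lt hv.1, Nat.mod_eq_of_lt hv'.1] at h3

theorem le_hit (F : ℤ[X]) {p : ℕ} (hp : p.Prime) :
    rt F p ≤ ((range p).filter (fun v : ℕ => (p : ℤ) ∣ F.eval ((v : ℤ) + 1))).card := by
  unfold rt
  apply card_le_card_of_injOn (fun x => (x + (p - 1)) % p)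
  · intro v hv
    rw [mem_coe, mem_filter, mem_range] at hv
    rw [mem_coe, mem_filter, mem_range]
    refine ⟨Nat.mod_lt _ hp.pos, ?_⟩
    rw [dvd_eval_congr F (b := (v : ℤ))]
    · exact hv.2
    · have h1 : (((v + (p - 1)) % p : ℕ) : ℤ) = ((v : ℤ) + ((p : ℤ) - 1)) % p := by
        have := hp.one_le
        push_cast [Nat.cast_sub this]
        rfl
      rw [h1]
      obtain ⟨k, hk⟩ := Int.dvd_self_sub_emod (x := (v : ℤ) + ((p : ℤ) - 1)) (m := (p : ℤ))
      exact ⟨1 - k, by linarith⟩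
  · intro v hv v' hv' h
    rw [mem_coe, mem_filter, mem_range] at hv hv'
    have h1 : v + (p - 1) ≡ v' + (p - 1) [MOD p] := h
    have h3 := Nat.ModEq.add_right_cancel' _ h1
    unfold Nat.ModEq at h3
    rwa [Nat.mod_eq_of_lt hv.1, Nat.mod_eq_of_lt hv'.1] at h3

/-- the growth condition -/
theorem growth (κ : ℕ) (ε : ℝ) (hε : 0 < ε) : ∃ N : ℕ, ∀ n : ℕ, N ≤ n →
    Real.log n ^ κ ≤ ε * Real.sqrt n := by
  have h1 := Real.isLittleO_pow_log_id_atTop (n := 2 * κ)
  have h2 := (h1.bound (show (0 : ℝ) < ε ^ 2 by positivity))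
  have h3 := tendsto_natCast_atTop_atTop (R := ℝ) |>.eventually h2
  obtain ⟨N, hN⟩ := Filter.eventually_atTop.1 h3
  refine ⟨max N 1, fun n hn => ?_⟩
  have h4 := hN n (le_trans (le_max_left _ _) hn)
  have hn1 : (1 : ℝ) ≤ n := by exact_mod_cast le_trans (le_max_right _ _) hn
  have hl : 0 ≤ Real.log n := Real.log_nonneg hn1
  rw [Real.norm_of_nonneg (by positivity), id, Real.norm_of_nonneg (by linarith)] at h4
  have h5 : (Real.log n ^ κ) ^ 2 ≤ (ε * Real.sqrt n) ^ 2 := by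
    rw [mul_pow, Real.sq_sqrt (by linarith), ← pow_mul, mul_comm κ 2]
    exact h4
  exact le_of_sq_le_sq h5 (by positivity)

end Pool.Agent.Q253.Line
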