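import Pool.Agent.Q253.Line.SieveA

/-! The two sided bound for the number of `x` without small prime factors of `F(x)`. -/

set_option autoImplicit false

open Finset Polynomial

namespace Pool.Agent.Q253.Line

open Pool.Agent.TH847.TP

theorem err_bound {C κ z J n : ℕ} (hJ : 2 ^ 2 ^ J ≤ z ^ 2) (hn : z ^ (8 * C ^ 2 * (κ + 1)) ≤ n) :
    ((2 : ℝ) ^ 2 ^ J) ^ (C * (C * (κ + 1))) ≤ Real.sqrt n := by
  apply Real.le_sqrt_of_sq_le
  have h1 : ((2 ^ 2 ^ J) ^ (C * (C * (κ + 1)))) ^ 2 ≤ n := by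
    calc ((2 ^ 2 ^ J) ^ (C * (C * (κ + 1)))) ^ 2 ≤ ((z ^ 2) ^ (C * (C * (κ + 1)))) ^ 2 :=
          Nat.pow_le_pow_left (Nat.pow_le_pow_left hJ _) _
      _ = z ^ (4 * C ^ 2 * (κ + 1)) := by
          rw [← pow_mul, ← pow_mul]
          congr 1
          ring
      _ ≤ z ^ (8 * C ^ 2 * (κ + 1)) := by
          rcases Nat.eq_zero_or_pos z with h | h
          · subst h
            rcases Nat.eq_zero_or_pos C with h' | h'
            · subst h'
              simp
            · rw [zero_pow (by positivity)]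
              exact Nat.zero_le _
          · apply Nat.pow_le_pow_right h
            nlinarith [Nat.zero_le (C ^ 2 * (κ + 1))]
      _ ≤ n := hn
  exact_mod_cast h1

/-- lower bound -/
theorem lowerA : ∃ K : ℕ, 1 ≤ K ∧ ∀ κ : ℕ, ∃ c : ℝ, 0 < c ∧ ∃ N : ℕ, ∀ n : ℕ, N ≤ n → ∀ z : ℕ,
    2 ≤ z → z ^ (K * (κ + 1)) ≤ n → ∀ F : ℤ[X], NFD F → F.natDegree ≤ κ →
    c * (n * W F n) ≤ ((rough F z n).card : ℝ) := by
  classical
  obtain ⟨C, hC1, hS⟩ := sieve
  refine ⟨8 * C ^ 2, by nlinarith, fun κ => ?_⟩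
  obtain ⟨cW, hcW, hW⟩ := W_lower κ
  set w := C * (κ + 1) with hw
  set M := ∏ p ∈ pr w, p with hM
  have hM0 : 0 < M := prod_pos fun p hp => (mem_pr.1 hp).1.pos
  have hMr : (0 : ℝ) < M := by exact_mod_cast hM0
  obtain ⟨N1, hN1⟩ := growth κ (cW / (8 * M)) (by positivity)
  refine ⟨1 / (8 * M), by positivity, max (max N1 (4 * M + 4)) 3, ?_⟩
  intro n hn z hz hzn F hF hd
  simp only [max_le_iff] at hn
  obtain ⟨⟨hn1, hn2⟩, hn3⟩ := hn
  obtain ⟨J, hJ1, hJ2⟩ := exists_J z hz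
  obtain ⟨x1, hx1, hx2, hx3⟩ := exists_nat hF w
  have hnr : (0 : ℝ) < n := by exact_mod_cast (by omega : 0 < n)
  have hln : 0 < Real.log n := by
    apply Real.log_pos
    exact_mod_cast (by omega : 1 < n)
  set P := (pr z).filter (fun p => w < p) with hP
  have hPp : ∀ p ∈ P, p.Prime ∧ w < p ∧ p ≤ 2 ^ 2 ^ J := by
    intro p hp
    rw [hP, mem_filter, mem_pr] at hp
    exact ⟨hp.1.1, hp.2, hp.1.2.trans hJ1⟩
  have hpM : ∀ p ∈ P, ¬ p ∣ M := by
    intro p hp hd
    rw [hM] at hd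
    obtain ⟨q, hq, hpq⟩ := (Prime.dvd_finsetProd_iff (hPp p hp).1.prime (fun q => q)).1 hd
    have h1 := mem_pr.1 hq
    have h2 := (Nat.prime_dvd_prime_iff_eq (hPp p hp).1 h1.1).1 hpq
    have h3 := (hPp p hp).2.1
    omega
  set ρ : ℕ → ℕ := fun p =>
    ((range p).filter (fun v : ℕ => (p : ℤ) ∣ F.eval ((x1 : ℤ) + M * v))).card with hρ
  have hρ1 : ∀ p ∈ P, ρ p ≤ rt F p := fun p hp => hit_le F (hPp p hp).1 (hpM p hp) x1
  have hρ2 : ∀ p ∈ P, ρ p ≤ κ := fun p hp =>
    (hρ1 p hp).trans ((rt_le (hPp p hp).1 (hF p (hPp p hp).1)).trans hd)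
  set U := (n - 1) / M with hU
  set T := (range U).filter (fun v : ℕ => ∀ p ∈ P, ¬ (p : ℤ) ∣ F.eval ((x1 : ℤ) + M * v)) with hT
  have key := sieve_lower (κ := κ) (b := w) (J := J) (z0 := w) (P := P) hC1 hS le_rfl le_rfl hPp
    (fun p v => (p : ℤ) ∣ F.eval ((x1 : ℤ) + M * v)) ρ
    (by
      intro p hp v
      apply dvd_eval_congr
      have h1 : (p : ℤ) ∣ (v : ℤ) - ((v % p : ℕ) : ℤ) := by
        push_cast
        exact Int.dvd_self_sub_emod
      obtain ⟨k, hk⟩ := h1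
      refine ⟨M * k, ?_⟩
      linear_combination (M : ℤ) * hk)
    (fun p _ => by convert rfl) hρ2 U T (by
      intro v hv h
      rw [hT, mem_filter, mem_range]
      exact ⟨hv, h⟩)
  have hTr : T.card ≤ (rough F z n).card := by
    apply card_le_card_of_injOn (fun v => x1 + M * v)
    · intro v hv
      rw [mem_coe, hT, mem_filter, mem_range] at hv
      rw [mem_coe, rough, mem_filter, mem_Ioo]
      refine ⟨⟨Nat.add_pos_left hx1 _, ?_⟩, fun p hp => ?_⟩
      · have h1 : x1 + M * v ≤ M * (v + 1) := by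
          have hx2' : x1 ≤ M := hx2
          rw [mul_add, mul_one, add_comm]
          exact Nat.add_le_add_left hx2' _
        have h2 : M * (v + 1) ≤ M * U := Nat.mul_le_mul_left M hv.1
        have h3 : M * U ≤ n - 1 := Nat.mul_div_le _ _
        have h4 : x1 + M * v ≤ n - 1 := h1.trans (h2.trans h3)
        show x1 + M * v < n
        omega
      · push_cast
        by_cases hpw : w < p
        · exact hv.2 p (by rw [hP, mem_filter]; exact ⟨hp, hpw⟩)
        · have h5 : p ∈ pr w := mem_pr.2 ⟨(mem_pr.1 hp).1, by omega⟩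
          rw [dvd_eval_congr F (b := (x1 : ℤ))]
          · exact hx3 p h5
          · have h6 : (p : ℤ) ∣ M := by exact_mod_cast dvd_prod_of_mem (fun q => q) h5
            obtain ⟨k, hk⟩ := h6
            refine ⟨k * v, ?_⟩
            linear_combination (v : ℤ) * hk
    · intro v _ v' _ h
      have h1 : x1 + M * v = x1 + M * v' := h
      have h2 : M * v = M * v' := by omega
      exact Nat.eq_of_mul_eq_mul_left hM0 h2
  have hprod : W F n ≤ ∏ p ∈ P, (1 - (ρ p : ℝ) / p) := by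
    have hzn' : z ≤ n := by
      refine le_trans ?_ hzn
      exact Nat.le_self_pow (by positivity) z
    have h1 : P ⊆ pr n := by
      intro p hp
      rw [hP, mem_filter, mem_pr] at hp
      exact mem_pr.2 ⟨hp.1.1, hp.1.2.trans hzn'⟩
    refine (W_le_prod hF h1).trans ?_
    apply Finset.prod_le_prod
    · intro p hp
      have h2 := (fac_mem hF (hPp p hp).1).1
      have h3 : (0 : ℝ) ≤ 1 / p := by positivity
      linarith
    · intro p hp
      have hp0 : (0 : ℝ) < p := by exact_mod_cast (hPp p hp).1.pos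
      have h2 : (ρ p : ℝ) ≤ rt F p := by exact_mod_cast hρ1 p hp
      have h3 : (ρ p : ℝ) / p ≤ rt F p / p := div_le_div_of_nonneg_right h2 hp0.le
      linarith
  have hUr : (n : ℝ) / (2 * M) ≤ U := by
    have h1 : n ≤ 2 * M * U := by
      have h2 := Nat.div_add_mod (n - 1) M
      have h3 := Nat.mod_lt (n - 1) hM0
      rw [← hU] at h2
      have h4 : M ≤ M * U := by
        apply Nat.le_mul_of_pos_right
        rw [hU]
        exact Nat.div_pos (by omega) hM0
      have h5 : 2 * M * U = M * U + M * U := by ring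
      omega
    rw [div_le_iff₀ (by positivity)]
    have h2 : (n : ℝ) ≤ 2 * M * U := by exact_mod_cast h1
    linarith
  have hE := err_bound (C := C) (κ := κ) hJ2 hzn
  have hWn := hW n hn3 F hF hd
  have hg := hN1 n hn1
  have hWp := W_pos hF n
  have hE2 : Real.sqrt n ≤ (1 / (8 * M)) * (n * W F n) := by
    have hs := Real.mul_self_sqrt hnr.le
    have hs0 : 0 < Real.sqrt n := Real.sqrt_pos.2 hnr
    have h1 : cW ≤ W F n * Real.log n ^ κ := by
      rwa [div_le_iff₀ (by positivity)] at hWn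
    have h2 : W F n * Real.log n ^ κ ≤ W F n * (cW / (8 * M) * Real.sqrt n) :=
      mul_le_mul_of_nonneg_left hg hWp.le
    have h3 : cW * 1 ≤ cW * (W F n * Real.sqrt n / (8 * M)) := by
      calc cW * 1 = cW := mul_one _
        _ ≤ _ := h1.trans h2
        _ = _ := by ring
    have h4 := le_of_mul_le_mul_left h3 hcW
    calc Real.sqrt n = Real.sqrt n * 1 := (mul_one _).symm
      _ ≤ Real.sqrt n * (W F n * Real.sqrt n / (8 * M)) := mul_le_mul_of_nonneg_left h4 hs0.le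
      _ = (Real.sqrt n * Real.sqrt n) * W F n / (8 * M) := by ring
      _ = 1 / (8 * M) * (n * W F n) := by rw [hs]; ring
  have hTr' : (T.card : ℝ) ≤ (rough F z n).card := by exact_mod_cast hTr
  have hUp : (n : ℝ) / (2 * M) * W F n ≤ U * ∏ p ∈ P, (1 - (ρ p : ℝ) / p) :=
    mul_le_mul hUr hprod hWp.le (Nat.cast_nonneg _)
  have hfin : (1 / 2 : ℝ) * ((n : ℝ) / (2 * M) * W F n) = 2 * (1 / (8 * M) * (n * W F n)) := by
    field_simp
    norm_num
  linarith

/-- upper bound -/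
theorem upperA : ∃ K : ℕ, 1 ≤ K ∧ ∀ (κ : ℕ) (δ : ℝ), 0 < δ → ∃ c : ℝ, 0 < c ∧ ∃ N : ℕ, ∀ n : ℕ, N ≤ n → ∀ z : ℕ,
    2 ≤ z → z ^ (K * (κ + 1)) ≤ n → δ * Real.log n ≤ Real.log z → ∀ F : ℤ[X], NFD F → F.natDegree ≤ κ →
    ((rough F z n).card : ℝ) ≤ c * (n * W F n) := by
  classical
  obtain ⟨C, hC1, hS⟩ := sieve
  refine ⟨8 * C ^ 2, by nlinarith, fun κ δ hδ => ?_⟩
  obtain ⟨cW, hcW, hW⟩ := W_lower κ
  obtain ⟨cm, hcm, hmid⟩ := mid_prod κ δ hδ
  set w := C * (κ + 1) with hw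
  set s := ∏ p ∈ pr w, (1 / (p : ℝ)) with hs
  have hs0 : 0 < s := by
    apply prod_pos
    intro p hp
    have : (0 : ℝ) < p := by exact_mod_cast (mem_pr.1 hp).1.pos
    positivity
  obtain ⟨N1, hN1⟩ := growth κ cW hcW
  obtain ⟨N2, hN2⟩ : ∃ N2 : ℕ, ∀ n : ℕ, N2 ≤ n → Real.log (2 * κ + w + 3) ≤ δ * Real.log n := by
    have h1 : Filter.Tendsto (fun n : ℕ => δ * Real.log n) Filter.atTop Filter.atTop :=
      (Real.tendsto_log_atTop.comp (tendsto_natCast_atTop_atTop (R := ℝ))).const_mul_atTop hδ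
    exact Filter.eventually_atTop.1 (h1.eventually_ge_atTop _)
  refine ⟨2 / (s * cm) + 1, by positivity, max (max N1 N2) 3, ?_⟩
  intro n hn z hz hzn hlz F hF hd
  simp only [max_le_iff] at hn
  obtain ⟨⟨hn1, hn2⟩, hn3⟩ := hn
  obtain ⟨J, hJ1, hJ2⟩ := exists_J z hz
  have hnr : (0 : ℝ) < n := by exact_mod_cast (by omega : 0 < n)
  have hln : 0 < Real.log n := by
    apply Real.log_pos
    exact_mod_cast (by omega : 1 < n)
  have hzr : (0 : ℝ) < z := by exact_mod_cast (by omega : 0 < z)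
  have hz3 : 2 * κ + w + 3 ≤ z := by
    have h1 := (hN2 n hn2).trans hlz
    rw [Real.log_le_log_iff (by positivity) hzr] at h1
    exact_mod_cast h1
  have hzn' : z ≤ n := by
    refine le_trans ?_ hzn
    exact Nat.le_self_pow (by positivity) z
  set P := (pr z).filter (fun p => w < p) with hP
  have hPp : ∀ p ∈ P, p.Prime ∧ w < p ∧ p ≤ 2 ^ 2 ^ J := by
    intro p hp
    rw [hP, mem_filter, mem_pr] at hp
    exact ⟨hp.1.1, hp.2, hp.1.2.trans hJ1⟩
  set ρ : ℕ → ℕ := fun p =>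
    ((range p).filter (fun v : ℕ => (p : ℤ) ∣ F.eval ((v : ℤ) + 1))).card with hρ
  have hρ0 : ∀ p ∈ P, rt F p ≤ ρ p := fun p hp => le_hit F (hPp p hp).1
  have hρ2 : ∀ p ∈ P, ρ p ≤ κ := fun p hp => by
    have h1 := hit_le F (p := p) (M := 1) (hPp p hp).1 (by
      have := (hPp p hp).1.two_le
      intro h
      have := Nat.le_of_dvd one_pos h
      omega) 1
    have h2 : ρ p ≤ rt F p := by
      refine le_trans (le_of_eq ?_) h1
      rw [hρ]
      simp only [Nat.cast_one, one_mul]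
      congr 1
      apply filter_congr
      intro v _
      rw [add_comm]
    exact h2.trans ((rt_le (hPp p hp).1 (hF p (hPp p hp).1)).trans hd)
  have key := hS κ w J w P le_rfl le_rfl hPp
    (fun p v => (p : ℤ) ∣ F.eval ((v : ℤ) + 1)) ρ
    (by
      intro p hp v
      apply dvd_eval_congr
      have h1 : (p : ℤ) ∣ (v : ℤ) - ((v % p : ℕ) : ℤ) := by
        push_cast
        exact Int.dvd_self_sub_emod
      obtain ⟨k, hk⟩ := h1
      exact ⟨k, by linarith⟩)
    (fun p _ => by convert rfl) hρ2 n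
  have hcard : (rough F z n).card ≤
      ((range n).filter (fun v : ℕ => ∀ p ∈ P, ¬ (p : ℤ) ∣ F.eval ((v : ℤ) + 1))).card := by
    apply card_le_card_of_injOn (fun x => x - 1)
    · intro x hx
      rw [mem_coe, rough, mem_filter, mem_Ioo] at hx
      rw [mem_coe, mem_filter, mem_range]
      have h1 : (((x - 1 : ℕ) : ℤ) + 1) = x := by omega
      refine ⟨by show x - 1 < n; omega, fun p hp => ?_⟩
      rw [h1]
      rw [hP, mem_filter] at hp
      exact hx.2 p hp.1
    · intro x hx y hy h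
      rw [mem_coe, rough, mem_filter, mem_Ioo] at hx hy
      have h1 : x - 1 = y - 1 := h
      omega
  have hcard' : ((rough F z n).card : ℝ) ≤
      (((range n).filter (fun v : ℕ => ∀ p ∈ P, ¬ (p : ℤ) ∣ F.eval ((v : ℤ) + 1))).card : ℝ) := by
    exact_mod_cast hcard
  have hκw : κ ≤ w := by
    have : κ + 1 ≤ C * (κ + 1) := Nat.le_mul_of_pos_left _ (by omega)
    omega
  have h0 := prod_nonneg' hκw (fun p hp => (hPp p hp).2.1) hρ2
  have hle : ∏ p ∈ P, (1 - (ρ p : ℝ) / p) ≤ ∏ p ∈ P, (1 - (rt F p : ℝ) / p) := by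
    apply Finset.prod_le_prod
    · intro p hp
      have h1 := (hPp p hp).2.1
      have h2 := hρ2 p hp
      have h3 : (0 : ℝ) < p := by exact_mod_cast (show 0 < p by omega)
      have h4 : (ρ p : ℝ) ≤ p := by exact_mod_cast (show ρ p ≤ p by omega)
      rw [sub_nonneg, div_le_one h3]
      exact h4
    · intro p hp
      have hp0 : (0 : ℝ) < p := by exact_mod_cast (hPp p hp).1.pos
      have h2 : (rt F p : ℝ) ≤ ρ p := by exact_mod_cast hρ0 p hp
      have h3 : (rt F p : ℝ) / p ≤ ρ p / p := div_le_div_of_nonneg_right h2 hp0.le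
      linarith
  -- the product over `P` against `W`
  have hWP : s * cm * ∏ p ∈ P, (1 - (rt F p : ℝ) / p) ≤ W F n := by
    have h1 : W F n = (∏ p ∈ pr n \ pr z, (1 - (rt F p : ℝ) / p)) * ∏ p ∈ pr z, (1 - (rt F p : ℝ) / p) := by
      unfold W
      rw [prod_sdiff]
      intro p hp
      rw [mem_pr] at hp ⊢
      exact ⟨hp.1, hp.2.trans hzn'⟩
    have h2 : ∏ p ∈ pr z, (1 - (rt F p : ℝ) / p) =
        (∏ p ∈ P, (1 - (rt F p : ℝ) / p)) * ∏ p ∈ pr w, (1 - (rt F p : ℝ) / p) := by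
      rw [hP, ← prod_filter_mul_prod_filter_not (pr z) (fun p => w < p)]
      congr 1
      apply prod_congr _ (fun _ _ => rfl)
      ext p
      rw [mem_filter, mem_pr, mem_pr]
      constructor
      · rintro ⟨⟨a, b⟩, c⟩
        exact ⟨a, by omega⟩
      · rintro ⟨a, b⟩
        exact ⟨⟨a, by omega⟩, by omega⟩
    have h3 := hmid z n (by omega) (by omega) hzn' hlz F hF hd
    have h4 := small_prod hF w
    have h5 : 0 ≤ ∏ p ∈ P, (1 - (rt F p : ℝ) / p) := h0.trans hle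
    rw [h1, h2]
    calc s * cm * ∏ p ∈ P, (1 - (rt F p : ℝ) / p) = cm * ((∏ p ∈ P, (1 - (rt F p : ℝ) / p)) * s) := by ring
      _ ≤ cm * ((∏ p ∈ P, (1 - (rt F p : ℝ) / p)) * ∏ p ∈ pr w, (1 - (rt F p : ℝ) / p)) :=
          mul_le_mul_of_nonneg_left (mul_le_mul_of_nonneg_left h4 h5) hcm.le
      _ ≤ _ := by
          apply mul_le_mul_of_nonneg_right h3
          exact mul_nonneg h5 (hs0.le.trans h4)
  have hE := err_bound (C := C) (κ := κ) hJ2 hzn
  have hWn := hW n hn3 F hF hd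
  have hg := hN1 n hn1
  have hWp := W_pos hF n
  have hE2 : Real.sqrt n ≤ n * W F n := by
    have hs := Real.mul_self_sqrt hnr.le
    have hs0 : 0 < Real.sqrt n := Real.sqrt_pos.2 hnr
    have h1 : cW ≤ W F n * Real.log n ^ κ := by
      rwa [div_le_iff₀ (by positivity)] at hWn
    have h2 : W F n * Real.log n ^ κ ≤ W F n * (cW * Real.sqrt n) :=
      mul_le_mul_of_nonneg_left hg hWp.le
    have h3 : cW * 1 ≤ cW * (W F n * Real.sqrt n) := by
      calc cW * 1 = cW := mul_one _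
        _ ≤ _ := h1.trans h2
        _ = _ := by ring
    have h4 := le_of_mul_le_mul_left h3 hcW
    calc Real.sqrt n = Real.sqrt n * 1 := (mul_one _).symm
      _ ≤ Real.sqrt n * (W F n * Real.sqrt n) := mul_le_mul_of_nonneg_left h4 hs0.le
      _ = (Real.sqrt n * Real.sqrt n) * W F n := by ring
      _ = n * W F n := by rw [hs]
  set Qa := ∏ p ∈ P, (1 - (ρ p : ℝ) / p) with hQa
  set Qb := ∏ p ∈ P, (1 - (rt F p : ℝ) / p) with hQb
  have k1 : (((range n).filter (fun v : ℕ => ∀ p ∈ P, ¬ (p : ℤ) ∣ F.eval ((v : ℤ) + 1))).card : ℝ) -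
      n * Qa ≤ (1 / 2 : ℝ) ^ w * (n * Qa) + ((2 : ℝ) ^ 2 ^ J) ^ (C * w) := by
    convert (abs_le.1 key).2
    rfl
  have hb : (1 / 2 : ℝ) ^ w ≤ 1 := pow_le_one₀ (by norm_num) (by norm_num)
  have hnQ : 0 ≤ (n : ℝ) * Qa := mul_nonneg hnr.le h0
  have k2 : (1 / 2 : ℝ) ^ w * (n * Qa) ≤ n * Qa := by
    have := mul_le_mul_of_nonneg_right hb hnQ
    linarith
  have k3 : (n : ℝ) * Qa ≤ n * Qb := mul_le_mul_of_nonneg_left hle hnr.le
  have k4 : (n : ℝ) * Qb ≤ 1 / (s * cm) * (n * W F n) := by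
    rw [div_mul_eq_mul_div, one_mul, le_div_iff₀ (by positivity)]
    calc (n : ℝ) * Qb * (s * cm) = n * (s * cm * Qb) := by ring
      _ ≤ n * W F n := mul_le_mul_of_nonneg_left hWP hnr.le
  have k5 : (2 / (s * cm) + 1) * (n * W F n) = 2 * (1 / (s * cm) * (n * W F n)) + n * W F n := by ring
  rw [k5]
  linarith

end Pool.Agent.Q253.Line
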